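import Mathlib
import Pool.Agent.Lib.MP_be2ccc_co.Weigh

/-!
# Two amicable chains and the cover lemma
-/

set_option autoImplicit false

namespace Pool.Agent.Lib.MP_be2ccc_co.AS

open Matrix Kronecker

/-- `F` symmetric Hadamard, `a`, `e` commuting skew weighing matrices anticommuting with `F` -/
structure Two {ι : Type} [Fintype ι] [DecidableEq ι] (n b c : ℤ) (F a e : Matrix ι ι ℤ) :
    Prop where
  Ft : Fᵀ = F
  at_ : aᵀ = -a
  et : eᵀ = -e
  FF : F * F = n • (1 : Matrix ι ι ℤ)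
  aa : a * a = -(b • (1 : Matrix ι ι ℤ))
  ee : e * e = -(c • (1 : Matrix ι ι ℤ))
  aF : a * F = -(F * a)
  eF : e * F = -(F * e)
  ae : a * e = e * a
  s1 : ∀ x y, F x y ^ 2 = 1
  s2 : ∀ x y, Tern (a x y)
  s3 : ∀ x y, Tern (e x y)

theorem two_base : Two (ι := Unit) 1 0 0 1 0 0 := by
  constructor <;> simp [Tern]

theorem skew_diag {ι : Type} {a : Matrix ι ι ℤ} (h : aᵀ = -a) (x : ι) : a x x = 0 := by
  have h2 := congrFun (congrFun h x) x
  rw [Matrix.transpose_apply, Matrix.neg_apply] at h2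
  omega

theorem tern_of_sq {z : ℤ} (h : z ^ 2 = 1) : Tern z := by
  have h8 : (z - 1) * (z + 1) = 0 := by linear_combination h
  rcases mul_eq_zero.1 h8 with h7 | h7
  · right; left; linarith
  · right; right; linarith

theorem two_step {ι : Type} [Fintype ι] [DecidableEq ι] {n b c : ℤ} {F a e : Matrix ι ι ℤ}
    (h : Two n b c F a e) (ε δ : ℤ) (hε : ε = 0 ∨ ε = 1) (hδ : δ = 0 ∨ δ = 1) :
    Two (2 * n) (2 * b + ε) (c + δ * n) (fromBlocks F F F (-F))
      (fromBlocks a (a + ε • (1 : Matrix ι ι ℤ)) (a - ε • (1 : Matrix ι ι ℤ)) (-a))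
      (fromBlocks e (δ • F) (-(δ • F)) e) := by
  have hε2 : ε * ε = ε := by rcases hε with h | h <;> simp [h]
  have hδ2 : δ * δ = δ := by rcases hδ with h | h <;> simp [h]
  have hεt : Tern ε ∧ Tern (-ε) := by rcases hε with h | h <;> simp [h, Tern]
  have haε : ∀ x y, Tern (a x y + ε * (1 : Matrix ι ι ℤ) x y) ∧
      Tern (a x y - ε * (1 : Matrix ι ι ℤ) x y) := by
    intro x y
    by_cases hxy : x = y
    · subst hxy
      rw [skew_diag h.at_ x, Matrix.one_apply_eq, mul_one, zero_add, zero_sub]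
      exact hεt
    · rw [Matrix.one_apply_ne hxy, mul_zero, add_zero, sub_zero]
      exact ⟨h.s2 x y, h.s2 x y⟩
  constructor
  case s1 => rintro (x | x) (y | y) <;> simp [h.s1 x y]
  case s2 =>
    rintro (x | x) (y | y)
    · exact h.s2 x y
    · exact (haε x y).1
    · exact (haε x y).2
    · exact (h.s2 x y).neg
  case s3 =>
    have hF : ∀ x y, Tern (F x y) := fun x y => tern_of_sq (h.s1 x y)
    rintro (x | x) (y | y)
    · simpa using h.s3 x y
    · rcases hδ with hd | hd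
      · simp [hd, Tern.zero]
      · simpa [hd] using hF x y
    · rcases hδ with hd | hd
      · simp [hd, Tern.zero]
      · simpa [hd] using (hF x y).neg
    · simpa using h.s3 x y
  case aa =>
    rw [fromBlocks_multiply, ← fromBlocks_one, fromBlocks_smul, fromBlocks_neg]
    refine Matrix.fromBlocks_inj.mpr ⟨?_, ?_, ?_, ?_⟩ <;>
    simp only [mul_add, add_mul, mul_sub, sub_mul, mul_neg, neg_mul, neg_neg, mul_one, one_mul,
      Matrix.smul_mul, Matrix.mul_smul, smul_smul, h.aa, hε2] <;> module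
  case ee =>
    rw [fromBlocks_multiply, ← fromBlocks_one, fromBlocks_smul, fromBlocks_neg]
    refine Matrix.fromBlocks_inj.mpr ⟨?_, ?_, ?_, ?_⟩ <;>
    simp only [mul_neg, neg_mul, neg_neg, Matrix.smul_mul, Matrix.mul_smul, smul_smul, h.ee,
      h.eF, h.FF, hδ2, smul_neg, ← mul_assoc] <;> module
  case ae =>
    rw [fromBlocks_multiply, fromBlocks_multiply]
    refine Matrix.fromBlocks_inj.mpr ⟨?_, ?_, ?_, ?_⟩ <;>
    simp only [mul_add, add_mul, mul_sub, sub_mul, mul_neg, neg_mul, neg_neg, mul_one, one_mul,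
      Matrix.smul_mul, Matrix.mul_smul, smul_smul, h.ae, h.aF, smul_neg] <;> module
  all_goals
    simp only [fromBlocks_transpose, fromBlocks_neg, fromBlocks_multiply, ← fromBlocks_one,
      fromBlocks_smul, Matrix.transpose_add, Matrix.transpose_sub, Matrix.transpose_neg,
      Matrix.transpose_smul, Matrix.transpose_one, h.at_, h.et, h.Ft]
  all_goals
    refine Matrix.fromBlocks_inj.mpr ⟨?_, ?_, ?_, ?_⟩
  all_goals
    try simp only [mul_add, add_mul, mul_sub, sub_mul, mul_neg, neg_mul, neg_neg, mul_one,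
      one_mul, Matrix.smul_mul, Matrix.mul_smul, smul_smul, h.aF, h.eF, h.FF]
  all_goals module

theorem two_exists (r b c : ℕ) (hb : b < 2 ^ r) (hc : c < 2 ^ r) :
    ∃ (ι : Type) (_ : Fintype ι) (_ : DecidableEq ι) (F a e : Matrix ι ι ℤ),
      Fintype.card ι = 2 ^ r ∧ Two (2 ^ r : ℤ) (b : ℤ) (c : ℤ) F a e := by
  induction r generalizing b c with
  | zero =>
    have hb0 : b = 0 := by simpa using hb
    have hc0 : c = 0 := by simpa using hc
    subst hb0; subst hc0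
    exact ⟨Unit, inferInstance, inferInstance, 1, 0, 0, by simp, by simpa using two_base⟩
  | succ r ih =>
    rw [pow_succ] at hb hc
    obtain ⟨c', δ, hδ, hcc, hc'⟩ : ∃ c' δ : ℕ, (δ = 0 ∨ δ = 1) ∧ c = c' + δ * 2 ^ r ∧
        c' < 2 ^ r := by
      by_cases h : 2 ^ r ≤ c
      · exact ⟨c - 2 ^ r, 1, Or.inr rfl, by omega, by omega⟩
      · exact ⟨c, 0, Or.inl rfl, by omega, by omega⟩
    obtain ⟨ι, _, _, F, a, e, hcard, h⟩ := ih (b / 2) c' (by omega) hc'
    have h2 := two_step h ((b % 2 : ℕ) : ℤ) (δ : ℤ)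
      (by rcases Nat.mod_two_eq_zero_or_one b with h | h <;> simp [h])
      (by rcases hδ with h | h <;> simp [h])
    have e1 : (2 : ℤ) * 2 ^ r = 2 ^ (r + 1) := by ring
    have e2 : (2 : ℤ) * ((b / 2 : ℕ) : ℤ) + ((b % 2 : ℕ) : ℤ) = (b : ℤ) := by
      exact_mod_cast Nat.div_add_mod b 2
    have e3 : ((c' : ℕ) : ℤ) + (δ : ℤ) * 2 ^ r = (c : ℤ) := by
      rw [hcc]; push_cast; ring
    rw [e1, e2, e3] at h2
    exact ⟨ι ⊕ ι, inferInstance, inferInstance, _, _, _,
      by rw [Fintype.card_sum, hcard, pow_succ]; ring, h2⟩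

/-- amicable triples: `F` symmetric Hadamard, `Z` of weight `b`, `Y` of weight `c` -/
theorem amicable (r b c : ℕ) (hb : b ≤ 2 ^ r) (hc : c ≤ 2 ^ r) :
    ∃ (ι : Type) (_ : Fintype ι) (_ : DecidableEq ι) (F Z Y : Matrix ι ι ℤ),
      Fintype.card ι = 2 ^ r ∧ Fᵀ = F ∧ F * F = (2 ^ r : ℤ) • (1 : Matrix ι ι ℤ) ∧
      (∀ x y, Tern (F x y)) ∧ (∀ x y, Tern (Z x y)) ∧ (∀ x y, Tern (Y x y)) ∧
      Z * Zᵀ = (b : ℤ) • (1 : Matrix ι ι ℤ) ∧ Y * Yᵀ = (c : ℤ) • (1 : Matrix ι ι ℤ) ∧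
      Z * F = F * Zᵀ ∧ Y * F = F * Yᵀ ∧ Z * Yᵀ = Y * Zᵀ := by
  have hpos : 0 < 2 ^ r := by positivity
  obtain ⟨b', hb', hbb⟩ : ∃ b', b' < 2 ^ r ∧ (b < 2 ^ r → b' = b) := by
    by_cases h : b < 2 ^ r
    · exact ⟨b, h, fun _ => rfl⟩
    · exact ⟨0, hpos, fun h' => absurd h' h⟩
  obtain ⟨c', hc', hcc⟩ : ∃ c', c' < 2 ^ r ∧ (c < 2 ^ r → c' = c) := by
    by_cases h : c < 2 ^ r
    · exact ⟨c, h, fun _ => rfl⟩
    · exact ⟨0, hpos, fun h' => absurd h' h⟩
  obtain ⟨ι, i1, i2, F, a, e, hcard, h⟩ := two_exists r b' c' hb' hc'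
  have hF : ∀ x y, Tern (F x y) := fun x y => tern_of_sq (h.s1 x y)
  have haa : a * aᵀ = (b' : ℤ) • (1 : Matrix ι ι ℤ) := by rw [h.at_, mul_neg, h.aa, neg_neg]
  have hee : e * eᵀ = (c' : ℤ) • (1 : Matrix ι ι ℤ) := by rw [h.et, mul_neg, h.ee, neg_neg]
  have haF : a * F = F * aᵀ := by rw [h.at_, h.aF, mul_neg]
  have heF : e * F = F * eᵀ := by rw [h.et, h.eF, mul_neg]
  have hae : a * eᵀ = e * aᵀ := by rw [h.et, h.at_, mul_neg, mul_neg, h.ae]
  have hFFt : F * Fᵀ = ((2 ^ r : ℕ) : ℤ) • (1 : Matrix ι ι ℤ) := by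
    rw [h.Ft, h.FF]; push_cast; rfl
  rcases Nat.lt_or_ge b (2 ^ r) with h1 | h1
  · rcases Nat.lt_or_ge c (2 ^ r) with h2 | h2
    · rw [hbb h1] at haa
      rw [hcc h2] at hee
      exact ⟨ι, i1, i2, F, a, e, hcard, h.Ft, h.FF, hF, h.s2, h.s3, haa, hee, haF, heF, hae⟩
    · have : c = 2 ^ r := le_antisymm hc h2
      subst this
      rw [hbb h1] at haa
      exact ⟨ι, i1, i2, F, a, F, hcard, h.Ft, h.FF, hF, h.s2, hF, haa, hFFt, haF,
        by rw [h.Ft], by rw [h.Ft, haF]⟩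
  · have hb2 : b = 2 ^ r := le_antisymm hb h1
    subst hb2
    rcases Nat.lt_or_ge c (2 ^ r) with h2 | h2
    · rw [hcc h2] at hee
      exact ⟨ι, i1, i2, F, F, e, hcard, h.Ft, h.FF, hF, hF, h.s3, hFFt, hee,
        by rw [h.Ft], heF, by rw [h.Ft, heF]⟩
    · have : c = 2 ^ r := le_antisymm hc h2
      subst this
      exact ⟨ι, i1, i2, F, F, F, hcard, h.Ft, h.FF, hF, hF, hF, hFFt, hFFt,
        by rw [h.Ft], by rw [h.Ft], rfl⟩

variable {κ : Type} [Fintype κ] [DecidableEq κ]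

/-- the weights `b + c p + 2^r q` -/
theorem three_term (r b c : ℕ) (hb : b ≤ 2 ^ r) (hc : c ≤ 2 ^ r) (P Q : Matrix κ κ ℤ) (p q : ℕ)
    (hPt : Pᵀ = -P) (hQt : Qᵀ = -Q) (hPQ : P * Q = -(Q * P))
    (hPP : P * P = -((p : ℤ) • (1 : Matrix κ κ ℤ))) (hQQ : Q * Q = -((q : ℤ) • (1 : Matrix κ κ ℤ)))
    (hdis : ∀ x y, P x y ^ 2 + Q x y ^ 2 + (1 : Matrix κ κ ℤ) x y ≤ 1) :
    HasW (2 ^ r * Fintype.card κ) (b + c * p + 2 ^ r * q) := by
  obtain ⟨ι, i1, i2, F, Z, Y, hcard, hFt, hFF, hF, hZ, hY, hZZ, hYY, hZF, hYF, hZY⟩ :=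
    amicable r b c hb hc
  refine HasWI.hasW (ι := ι × κ) (by rw [Fintype.card_prod, hcard])
    ⟨Z ⊗ₖ (1 : Matrix κ κ ℤ) + Y ⊗ₖ P + F ⊗ₖ Q, ?_, ?_⟩
  · rintro ⟨i, x⟩ ⟨j, y⟩
    have h1 := hdis x y
    simp only [Matrix.add_apply, Matrix.kroneckerMap_apply]
    have h2 : 0 ≤ P x y ^ 2 := sq_nonneg _
    have h3 : 0 ≤ Q x y ^ 2 := sq_nonneg _
    by_cases hxy : x = y
    · subst hxy
      rw [Matrix.one_apply_eq] at h1 ⊢
      have hP0 : P x x = 0 := pow_eq_zero_iff (two_ne_zero) |>.mp (by linarith)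
      have hQ0 : Q x x = 0 := pow_eq_zero_iff (two_ne_zero) |>.mp (by linarith)
      rw [hP0, hQ0]
      simpa using hZ i j
    · rw [Matrix.one_apply_ne hxy] at h1 ⊢
      rcases (by omega : P x y ^ 2 = 0 ∨ P x y ^ 2 = 1) with h4 | h4
      · have hP0 : P x y = 0 := pow_eq_zero_iff (two_ne_zero) |>.mp h4
        have hQ1 : Tern (Q x y) := by
          rcases (by omega : Q x y ^ 2 = 0 ∨ Q x y ^ 2 = 1) with h5 | h5
          · left; exact pow_eq_zero_iff (two_ne_zero) |>.mp h5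
          · exact tern_of_sq h5
        rw [hP0, mul_zero, mul_zero, zero_add, zero_add]
        exact (hF i j).mul hQ1
      · have hQ0 : Q x y = 0 := pow_eq_zero_iff (two_ne_zero) |>.mp (by linarith)
        rw [hQ0, mul_zero, mul_zero, zero_add, add_zero]
        exact (hY i j).mul (tern_of_sq h4)
  · have kt : ∀ (A : Matrix ι ι ℤ) (B : Matrix κ κ ℤ), (A ⊗ₖ B)ᵀ = Aᵀ ⊗ₖ Bᵀ := by
      intro A B; ext x y; simp [Matrix.kroneckerMap_apply]
    have kn : ∀ (A : Matrix ι ι ℤ) (B : Matrix κ κ ℤ), A ⊗ₖ (-B) = -(A ⊗ₖ B) := by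
      intro A B; ext x y; simp [Matrix.kroneckerMap_apply]
    have hYZ : Y * Zᵀ = Z * Yᵀ := hZY.symm
    rw [transpose_add, transpose_add, kt, kt, kt, transpose_one, hPt, hQt, hFt, kn, kn]
    simp only [add_mul, mul_add, mul_neg, ← Matrix.mul_kronecker_mul, one_mul, mul_one, hZZ, hYY,
      hFF, hPP, hQQ, hPQ, kn, neg_neg, hZF, hYF, hYZ]
    have e2 : ∀ u v : ℤ, (u • (1 : Matrix ι ι ℤ)) ⊗ₖ (v • (1 : Matrix κ κ ℤ)) =
        (u * v) • (1 : Matrix (ι × κ) (ι × κ) ℤ) := by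
      intro u v
      rw [Matrix.smul_kronecker, Matrix.kronecker_smul, Matrix.one_kronecker_one, smul_smul]
    have e3 := e2 (b : ℤ) 1
    rw [one_smul] at e3
    rw [e3, e2, e2]
    push_cast
    module

/-- all weights from a skew conference matrix which splits into anticommuting skew parts -/
theorem cover_members {N : ℕ} (P : Fin N → Matrix κ κ ℤ) (w : Fin N → ℕ) (r : ℕ)
    (hPt : ∀ i, (P i)ᵀ = -P i) (hanti : ∀ i j, i ≠ j → P i * P j = -(P j * P i))
    (hPP : ∀ i, P i * P i = -((w i : ℤ) • (1 : Matrix κ κ ℤ)))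
    (hdis : ∀ x y, ∑ i, P i x y ^ 2 + (1 : Matrix κ κ ℤ) x y ≤ 1)
    (hw : ∀ i, w i ≤ 2 ^ r) (k : ℕ) (hk : k ≤ 2 ^ r * (1 + ∑ i, w i)) :
    HasW (2 ^ r * Fintype.card κ) k := by
  -- partial sums
  have hQt : ∀ t : Finset (Fin N), (∑ i ∈ t, P i)ᵀ = -∑ i ∈ t, P i := by
    intro t
    rw [Matrix.transpose_sum, ← Finset.sum_neg_distrib]
    exact Finset.sum_congr rfl fun i _ => hPt i
  have hPQ : ∀ (t : Finset (Fin N)) (j : Fin N), j ∉ t →
      P j * (∑ i ∈ t, P i) = -((∑ i ∈ t, P i) * P j) := by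
    intro t j hj
    rw [Finset.mul_sum, Finset.sum_mul, ← Finset.sum_neg_distrib]
    exact Finset.sum_congr rfl fun i hi => hanti j i (fun e => hj (e ▸ hi))
  have hQQ : ∀ t : Finset (Fin N), (∑ i ∈ t, P i) * (∑ i ∈ t, P i) =
      -(((∑ i ∈ t, w i : ℕ) : ℤ) • (1 : Matrix κ κ ℤ)) := by
    intro t
    induction t using Finset.induction_on with
    | empty => simp
    | insert a t ha ih =>
      rw [Finset.sum_insert ha, Finset.sum_insert ha, add_mul, mul_add, mul_add, ih, hPP,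
        hPQ t a ha]
      push_cast
      module
  -- squares of disjoint entries
  have hent : ∀ (t : Finset (Fin N)) (x y : κ), (∑ i ∈ t, P i x y ^ 2 = 0 →
      ∑ i ∈ t, P i x y = 0) ∧ (∑ i ∈ t, P i x y ^ 2 ≤ 1 →
      (∑ i ∈ t, P i x y) ^ 2 = ∑ i ∈ t, P i x y ^ 2) := by
    intro t x y
    induction t using Finset.induction_on with
    | empty => simp
    | insert a t ha ih =>
      rw [Finset.sum_insert ha, Finset.sum_insert ha]
      have h0 : 0 ≤ ∑ i ∈ t, P i x y ^ 2 := Finset.sum_nonneg fun i _ => sq_nonneg _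
      have h1 : 0 ≤ P a x y ^ 2 := sq_nonneg _
      constructor
      · intro h
        have h2 : P a x y = 0 := pow_eq_zero_iff (two_ne_zero) |>.mp (by linarith)
        rw [ih.1 (by linarith), h2]; ring
      · intro h
        rcases (by omega : P a x y ^ 2 = 0 ∨ ∑ i ∈ t, P i x y ^ 2 = 0) with h2 | h2
        · have h3 : P a x y = 0 := pow_eq_zero_iff (two_ne_zero) |>.mp h2
          rw [h3, zero_add, ih.2 (by linarith)]; ring
        · rw [ih.1 h2, h2]; ring
  have hsub : ∀ (t : Finset (Fin N)) (x y : κ), ∑ i ∈ t, P i x y ^ 2 ≤ ∑ i, P i x y ^ 2 :=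
    fun t x y => Finset.sum_le_sum_of_subset_of_nonneg (Finset.subset_univ t)
      (fun i _ _ => sq_nonneg _)
  have hone : ∀ x y, 0 ≤ (1 : Matrix κ κ ℤ) x y := by
    intro x y; rw [Matrix.one_apply]; split_ifs <;> norm_num
  -- main induction on the complement
  have main : ∀ (d : ℕ) (t : Finset (Fin N)), (Finset.univ \ t).card = d →
      2 ^ r * ∑ i ∈ t, w i ≤ k → HasW (2 ^ r * Fintype.card κ) k := by
    intro d
    induction d with
    | zero =>
      intro t hd ht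
      have htu : t = Finset.univ := by
        have := Finset.card_eq_zero.1 hd
        exact Finset.univ_subset_iff.1 (Finset.sdiff_eq_empty_iff_subset.1 this)
      subst htu
      have hb : k - 2 ^ r * ∑ i, w i ≤ 2 ^ r := by
        rw [mul_add, mul_one] at hk; omega
      have h1 := three_term r (k - 2 ^ r * ∑ i, w i) 0 hb (Nat.zero_le _) (0 : Matrix κ κ ℤ)
        (∑ i, P i) 0 (∑ i, w i) (by simp) (hQt _) (by simp) (by simp) (hQQ _) (by
          intro x y
          have h2 := hdis x y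
          have h3 := (hent Finset.univ x y).2 (by linarith [hone x y])
          rw [Matrix.sum_apply, h3]
          simpa using h2)
      have h2 : k - 2 ^ r * ∑ i, w i + 0 * 0 + 2 ^ r * ∑ i, w i = k := by omega
      rwa [h2] at h1
    | succ d ih =>
      intro t hd ht
      obtain ⟨j, hj⟩ : (Finset.univ \ t).Nonempty := by
        rw [← Finset.card_pos]; omega
      have hjt : j ∉ t := (Finset.mem_sdiff.1 hj).2
      by_cases hle : 2 ^ r * ∑ i ∈ insert j t, w i ≤ k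
      · refine ih (insert j t) ?_ hle
        have h1 : Finset.univ \ insert j t = (Finset.univ \ t).erase j := by
          ext i; simp [not_or]
        rw [h1, Finset.card_erase_of_mem hj, hd]; rfl
      · rw [Finset.sum_insert hjt] at hle
        push Not at hle
        have hwj : 0 < w j := by
          by_contra h0
          have : w j = 0 := by omega
          rw [this, zero_add] at hle
          omega
        have hρ : k - 2 ^ r * ∑ i ∈ t, w i < 2 ^ r * w j := by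
          rw [mul_add] at hle; omega
        have hdiv : (k - 2 ^ r * ∑ i ∈ t, w i) / w j < 2 ^ r :=
          (Nat.div_lt_iff_lt_mul hwj).2 hρ
        have hmod : (k - 2 ^ r * ∑ i ∈ t, w i) % w j ≤ 2 ^ r :=
          ((Nat.mod_lt _ hwj).le).trans (hw j)
        have h1 := three_term r ((k - 2 ^ r * ∑ i ∈ t, w i) % w j)
          ((k - 2 ^ r * ∑ i ∈ t, w i) / w j) hmod hdiv.le (P j) (∑ i ∈ t, P i) (w j)
          (∑ i ∈ t, w i) (hPt j) (hQt _) (hPQ t j hjt) (hPP j) (hQQ _) (by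
            intro x y
            have h2 := hdis x y
            have h3 := hsub (insert j t) x y
            rw [Finset.sum_insert hjt] at h3
            have h4 := (hent t x y).2 (by nlinarith [hone x y, sq_nonneg (P j x y)])
            rw [Matrix.sum_apply, h4]
            linarith)
        have h2 : (k - 2 ^ r * ∑ i ∈ t, w i) % w j + (k - 2 ^ r * ∑ i ∈ t, w i) / w j * w j +
            2 ^ r * ∑ i ∈ t, w i = k := by
          have := Nat.div_add_mod' (k - 2 ^ r * ∑ i ∈ t, w i) (w j)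
          omega
        rwa [h2] at h1
  exact main _ ∅ rfl (by simp)

end Pool.Agent.Lib.MP_be2ccc_co.AS
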