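import Mathlib

/-!
# Complementary polynomials in the cyclic shift

`S` is the cyclic shift of order `m`. For `h < 2 ^ r` there are `2 r` integer polynomials with
disjoint supports, union of the supports `[u, u + h)`, all coefficients `±1`, such that the sum of
`p(S) p(S)ᵀ` is `h`.
-/

set_option autoImplicit false

namespace Pool.Agent.Lib.MP_be2ccc_co.AS

open Matrix Polynomial

section

variable {κ : Type} [Fintype κ] [DecidableEq κ]

theorem aeval_t (S : Matrix κ κ ℤ) (p : ℤ[X]) : (aeval S p)ᵀ = aeval Sᵀ p := by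
  rw [aeval_eq_sum_range, aeval_eq_sum_range, Matrix.transpose_sum]
  refine Finset.sum_congr rfl fun k _ => ?_
  rw [Matrix.transpose_smul, Matrix.transpose_pow]

theorem aeval_comm {a b : Matrix κ κ ℤ} (hab : Commute a b) (p q : ℤ[X]) :
    Commute (aeval a p) (aeval b q) := by
  rw [aeval_eq_sum_range, aeval_eq_sum_range]
  refine Commute.sum_left _ _ _ fun i _ => Commute.sum_right _ _ _ fun j _ => ?_
  exact ((hab.pow_pow i j).smul_left _).smul_right _

/-- one Golay block -/
theorem golay_block (S : Matrix κ κ ℤ) (hS : S * Sᵀ = 1) (hc : Commute S Sᵀ) (j u : ℕ) :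
    ∃ p q : ℤ[X], (∀ k, p.coeff k ^ 2 + q.coeff k ^ 2 = if u ≤ k ∧ k < u + 2 ^ j then 1 else 0) ∧
      aeval S p * (aeval S p)ᵀ + aeval S q * (aeval S q)ᵀ =
        (2 ^ j : ℤ) • (1 : Matrix κ κ ℤ) := by
  have hpow : ∀ n : ℕ, S ^ n * Sᵀ ^ n = 1 := fun n => by
    rw [← hc.mul_pow, hS, one_pow]
  induction j with
  | zero =>
    refine ⟨X ^ u, 0, fun k => ?_, ?_⟩
    · rw [coeff_X_pow, coeff_zero]
      by_cases h : k = u
      · subst h; simp
      · rw [if_neg h, if_neg (by omega)]; simp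
    · rw [map_zero, zero_mul, add_zero, aeval_t, map_pow, map_pow, aeval_X, aeval_X, hpow]
      simp
  | succ j ih =>
    obtain ⟨p, q, h1, h2⟩ := ih
    refine ⟨p + q, X ^ (2 ^ j) * (p - q), fun k => ?_, ?_⟩
    · have e0 : u + 2 ^ (j + 1) = u + 2 ^ j * 2 := by rw [pow_succ]
      rw [coeff_add, coeff_X_pow_mul', e0]
      have hk := h1 k
      have key : ∀ a b : ℤ, a ^ 2 + b ^ 2 = 0 ∨ a ^ 2 + b ^ 2 = 1 →
          (a + b) ^ 2 = a ^ 2 + b ^ 2 ∧ (a - b) ^ 2 = a ^ 2 + b ^ 2 := by
        intro a b hab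
        have h3 : a ≤ 1 := by rcases hab with hab | hab <;> nlinarith [sq_nonneg b]
        have h4 : -1 ≤ a := by rcases hab with hab | hab <;> nlinarith [sq_nonneg b]
        have h5 : b ≤ 1 := by rcases hab with hab | hab <;> nlinarith [sq_nonneg a]
        have h6 : -1 ≤ b := by rcases hab with hab | hab <;> nlinarith [sq_nonneg a]
        interval_cases a <;> interval_cases b <;> simp_all
      have h01 : ∀ k, p.coeff k ^ 2 + q.coeff k ^ 2 = 0 ∨ p.coeff k ^ 2 + q.coeff k ^ 2 = 1 := by
        intro k; rw [h1 k]; split_ifs <;> simp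
      rw [(key _ _ (h01 k)).1, hk]
      by_cases hle : 2 ^ j ≤ k
      · rw [if_pos hle, coeff_sub, (key _ _ (h01 _)).2, h1 (k - 2 ^ j)]
        split_ifs <;> first | omega | simp
      · rw [if_neg hle]
        split_ifs <;> first | omega | simp
    · have e1 : aeval S (X ^ (2 ^ j) * (p - q)) = S ^ (2 ^ j) * (aeval S p - aeval S q) := by
        rw [map_mul, map_sub, map_pow, aeval_X]
      have e2 : (aeval S (X ^ (2 ^ j) * (p - q)))ᵀ =
          Sᵀ ^ (2 ^ j) * (aeval S p - aeval S q)ᵀ := by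
        rw [aeval_t, map_mul, map_sub, map_pow, aeval_X, Matrix.transpose_sub, aeval_t, aeval_t]
      have c1 : Commute (aeval S p - aeval S q) (Sᵀ ^ (2 ^ j)) := by
        have h3 := aeval_comm hc (p - q) (X ^ (2 ^ j))
        rw [map_sub, map_pow, aeval_X] at h3
        exact h3
      have e3 : aeval S (X ^ (2 ^ j) * (p - q)) * (aeval S (X ^ (2 ^ j) * (p - q)))ᵀ =
          (aeval S p - aeval S q) * (aeval S p - aeval S q)ᵀ := by
        rw [e2, e1]
        calc S ^ (2 ^ j) * (aeval S p - aeval S q) * (Sᵀ ^ (2 ^ j) * (aeval S p - aeval S q)ᵀ)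
            = S ^ (2 ^ j) * ((aeval S p - aeval S q) * Sᵀ ^ (2 ^ j)) *
                (aeval S p - aeval S q)ᵀ := by noncomm_ring
          _ = S ^ (2 ^ j) * (Sᵀ ^ (2 ^ j) * (aeval S p - aeval S q)) *
                (aeval S p - aeval S q)ᵀ := by rw [c1.eq]
          _ = S ^ (2 ^ j) * Sᵀ ^ (2 ^ j) * ((aeval S p - aeval S q) *
                (aeval S p - aeval S q)ᵀ) := by noncomm_ring
          _ = _ := by rw [hpow, one_mul]
      rw [e3, map_add, Matrix.transpose_add, Matrix.transpose_sub]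
      have e4 : (aeval S p + aeval S q) * ((aeval S p)ᵀ + (aeval S q)ᵀ) +
          (aeval S p - aeval S q) * ((aeval S p)ᵀ - (aeval S q)ᵀ) =
          (2 : ℤ) • (aeval S p * (aeval S p)ᵀ + aeval S q * (aeval S q)ᵀ) := by
        simp only [mul_add, add_mul, mul_sub, sub_mul]
        module
      rw [e4, h2, smul_smul, pow_succ, mul_comm]

/-- binary digits -/
theorem golay_digits (S : Matrix κ κ ℤ) (hS : S * Sᵀ = 1) (hc : Commute S Sᵀ) (r : ℕ) :
    ∀ u h : ℕ, h < 2 ^ r → ∃ p : Fin (2 * r) → ℤ[X],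
      (∀ k, ∑ i, (p i).coeff k ^ 2 = if u ≤ k ∧ k < u + h then 1 else 0) ∧
      ∑ i, aeval S (p i) * (aeval S (p i))ᵀ = (h : ℤ) • (1 : Matrix κ κ ℤ) := by
  induction r with
  | zero =>
    intro u h hh
    have h0 : h = 0 := by simpa using hh
    subst h0
    refine ⟨fun i => 0, fun k => ?_, ?_⟩
    · rw [if_neg (by omega)]; simp
    · simp
  | succ r ih =>
    intro u h hh
    rw [pow_succ] at hh
    by_cases hr : 2 ^ r ≤ h
    · obtain ⟨a, b, h1, h2⟩ := golay_block S hS hc r u
      obtain ⟨p, h3, h4⟩ := ih (u + 2 ^ r) (h - 2 ^ r) (by omega)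
      refine ⟨(Fin.cons a (Fin.cons b p) : Fin (2 * r + 1 + 1) → ℤ[X]), fun k => ?_, ?_⟩
      · show ∑ i : Fin (2 * r + 1 + 1), _ = _
        rw [Fin.sum_univ_succ, Fin.sum_univ_succ]
        simp only [Fin.cons_zero, Fin.cons_succ]
        rw [h3 k, ← add_assoc, h1 k]
        split_ifs <;> first | omega | simp
      · show ∑ i : Fin (2 * r + 1 + 1), _ = _
        rw [Fin.sum_univ_succ, Fin.sum_univ_succ]
        simp only [Fin.cons_zero, Fin.cons_succ]
        rw [h4, ← add_assoc, h2, ← add_smul]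
        congr 1
        push_cast [Nat.cast_sub hr]
        ring
    · obtain ⟨p, h3, h4⟩ := ih u h (by omega)
      refine ⟨(Fin.cons 0 (Fin.cons 0 p) : Fin (2 * r + 1 + 1) → ℤ[X]), fun k => ?_, ?_⟩
      · show ∑ i : Fin (2 * r + 1 + 1), _ = _
        rw [Fin.sum_univ_succ, Fin.sum_univ_succ]
        simp only [Fin.cons_zero, Fin.cons_succ]
        rw [h3 k]
        simp
      · show ∑ i : Fin (2 * r + 1 + 1), _ = _
        rw [Fin.sum_univ_succ, Fin.sum_univ_succ]
        simp only [Fin.cons_zero, Fin.cons_succ]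
        rw [h4]
        simp

end

/-- the cyclic shift -/
def shift (m : ℕ) : Matrix (ZMod m) (ZMod m) ℤ := fun i j => if i = j + 1 then 1 else 0

theorem shift_pow (m : ℕ) [NeZero m] (k : ℕ) (i j : ZMod m) :
    (shift m ^ k) i j = if i = j + k then 1 else 0 := by
  induction k generalizing i j with
  | zero => rw [pow_zero, Matrix.one_apply]; simp
  | succ k ih =>
    rw [pow_succ, Matrix.mul_apply]
    rw [Finset.sum_eq_single (j + 1)]
    · rw [ih]
      simp only [shift, if_true, mul_one]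
      have : j + 1 + (k : ZMod m) = j + ((k + 1 : ℕ) : ZMod m) := by push_cast; ring
      rw [this]
    · intro l _ hl
      simp [shift, hl]
    · intro h; exact absurd (Finset.mem_univ _) h

theorem shift_mul_t (m : ℕ) [NeZero m] : shift m * (shift m)ᵀ = 1 := by
  ext i j
  rw [Matrix.mul_apply, Matrix.one_apply]
  rw [Finset.sum_eq_single (i - 1)]
  · simp only [shift, Matrix.transpose_apply, sub_add_cancel, if_true, one_mul]
    by_cases h : i = j
    · rw [if_pos h.symm, if_pos h]
    · rw [if_neg (fun e => h e.symm), if_neg h]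
  · intro l _ hl
    have : i ≠ l + 1 := fun e => hl (by rw [e]; ring)
    simp [shift, this]
  · intro h; exact absurd (Finset.mem_univ _) h

theorem shift_comm (m : ℕ) [NeZero m] : Commute (shift m) (shift m)ᵀ := by
  show shift m * (shift m)ᵀ = (shift m)ᵀ * shift m
  rw [shift_mul_t]
  exact (mul_eq_one_comm.1 (shift_mul_t m)).symm

theorem aeval_shift (m : ℕ) [NeZero m] (p : ℤ[X]) (hp : ∀ k, m ≤ k → p.coeff k = 0)
    (i j : ZMod m) : (aeval (shift m) p) i j = p.coeff (i - j).val := by
  have hd : p.natDegree < m := by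
    by_contra hlt
    push Not at hlt
    have h0 := hp _ hlt
    have h1 : p.leadingCoeff = 0 := h0
    rw [leadingCoeff_eq_zero] at h1
    rw [h1, natDegree_zero] at hlt
    exact (NeZero.ne m) (by omega)
  rw [aeval_eq_sum_range' hd, Matrix.sum_apply]
  rw [Finset.sum_eq_single (i - j).val]
  · rw [Matrix.smul_apply, shift_pow, if_pos, smul_eq_mul, mul_one]
    rw [ZMod.natCast_val, ZMod.cast_id', id]; ring
  · intro k hk hne
    rw [Matrix.smul_apply, shift_pow, if_neg, smul_zero]
    intro e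
    apply hne
    have hk' : k < m := Finset.mem_range.1 hk
    have : i - j = (k : ZMod m) := by rw [e]; ring
    rw [this, ZMod.val_natCast_of_lt hk']
  · intro h
    exact absurd (Finset.mem_range.2 (ZMod.val_lt _)) h

end Pool.Agent.Lib.MP_be2ccc_co.AS
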