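import Mathlib

/-!
# Four integer matrices of order `16`

`K` is a skew conference matrix, `B` a full sign matrix with `B * B = 0` and
`B * Bᵀ + Bᵀ * B = 32`, `H` and `F` are commuting symmetric Hadamard matrices; `K` anticommutes
with `B`, `H`, `F`, and `B` commutes with `H` and anticommutes with `F`.
-/

set_option autoImplicit false

namespace Pool.Agent.Lib.MP_be2ccc_co.AS

open Matrix

/-- the sign `-1` at the positions of the bits of the rows `l` -/
def sg (l : List ℕ) (i j : Fin 16) : ℤ := if (l.getD i 0).testBit j then -1 else 1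

/-- a skew conference matrix -/
def gK : Matrix (Fin 16) (Fin 16) ℤ := fun i j =>
  if i = j then 0 else
    sg [40170, 14716, 62937, 44864, 37673, 13964, 1456, 24346, 31777, 5447, 45074, 54900, 16456,
      6865, 9851, 29666] i j

/-- the mode -/
def gB : Matrix (Fin 16) (Fin 16) ℤ := fun i j =>
  sg [18667, 53569, 33832, 7549, 57048, 47245, 4635, 29873, 32245, 10415, 16739, 60358, 45317,
    7007, 36204, 55497] i j

/-- the multiplier -/
def gH : Matrix (Fin 16) (Fin 16) ℤ := fun i j =>
  sg [32039, 36237, 10267, 10062, 5140, 6977, 16680, 45442, 5355, 48680, 55067, 33319, 10161,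
    29325, 58433, 20098] i j

/-- the grading -/
def gF : Matrix (Fin 16) (Fin 16) ℤ := fun i j =>
  sg [56842, 18323, 60752, 29897, 18630, 11936, 31644, 7674, 47046, 31587, 60847, 57077, 35785,
    18284, 11871, 7429] i j

theorem gK_t : gKᵀ = -gK := by
  have h : ∀ i j, gK j i = -gK i j := by decide +kernel
  ext i j; exact h i j

theorem gH_t : gHᵀ = gH := by
  have h : ∀ i j, gH j i = gH i j := by decide +kernel
  ext i j; exact h i j

theorem gF_t : gFᵀ = gF := by
  have h : ∀ i j, gF j i = gF i j := by decide +kernel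
  ext i j; exact h i j

theorem gK_sq : gK * gK = -((15 : ℤ) • (1 : Matrix (Fin 16) (Fin 16) ℤ)) := by
  have h : ∀ i j, (∑ k, gK i k * gK k j) = if i = j then -15 else 0 := by decide +kernel
  ext i j
  rw [Matrix.mul_apply, h i j, Matrix.neg_apply, Matrix.smul_apply, Matrix.one_apply]
  split_ifs <;> simp

theorem gH_sq : gH * gH = (16 : ℤ) • (1 : Matrix (Fin 16) (Fin 16) ℤ) := by
  have h : ∀ i j, (∑ k, gH i k * gH k j) = if i = j then 16 else 0 := by decide +kernel
  ext i j
  rw [Matrix.mul_apply, h i j, Matrix.smul_apply, Matrix.one_apply]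
  split_ifs <;> simp

theorem gF_sq : gF * gF = (16 : ℤ) • (1 : Matrix (Fin 16) (Fin 16) ℤ) := by
  have h : ∀ i j, (∑ k, gF i k * gF k j) = if i = j then 16 else 0 := by decide +kernel
  ext i j
  rw [Matrix.mul_apply, h i j, Matrix.smul_apply, Matrix.one_apply]
  split_ifs <;> simp

theorem gB_sq : gB * gB = 0 := by
  have h : ∀ i j, (∑ k, gB i k * gB k j) = 0 := by decide +kernel
  ext i j
  rw [Matrix.mul_apply, h i j, Matrix.zero_apply]

theorem gB_car : gB * gBᵀ + gBᵀ * gB = (32 : ℤ) • (1 : Matrix (Fin 16) (Fin 16) ℤ) := by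
  have h : ∀ i j, (∑ k, gB i k * gB j k) + (∑ k, gB k i * gB k j) = if i = j then 32 else 0 := by
    decide +kernel
  ext i j
  rw [Matrix.add_apply, Matrix.mul_apply, Matrix.mul_apply, Matrix.smul_apply, Matrix.one_apply]
  simp only [Matrix.transpose_apply]
  rw [h i j]
  split_ifs <;> simp

theorem gKH : gK * gH = -(gH * gK) := by
  have h : ∀ i j, (∑ k, gK i k * gH k j) = -(∑ k, gH i k * gK k j) := by decide +kernel
  ext i j
  rw [Matrix.neg_apply, Matrix.mul_apply, Matrix.mul_apply, h i j]

theorem gKF : gK * gF = -(gF * gK) := by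
  have h : ∀ i j, (∑ k, gK i k * gF k j) = -(∑ k, gF i k * gK k j) := by decide +kernel
  ext i j
  rw [Matrix.neg_apply, Matrix.mul_apply, Matrix.mul_apply, h i j]

theorem gKB : gK * gB = -(gB * gK) := by
  have h : ∀ i j, (∑ k, gK i k * gB k j) = -(∑ k, gB i k * gK k j) := by decide +kernel
  ext i j
  rw [Matrix.neg_apply, Matrix.mul_apply, Matrix.mul_apply, h i j]

theorem gHB : gH * gB = gB * gH := by
  have h : ∀ i j, (∑ k, gH i k * gB k j) = (∑ k, gB i k * gH k j) := by decide +kernel
  ext i j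
  rw [Matrix.mul_apply, Matrix.mul_apply, h i j]

theorem gFB : gF * gB = -(gB * gF) := by
  have h : ∀ i j, (∑ k, gF i k * gB k j) = -(∑ k, gB i k * gF k j) := by decide +kernel
  ext i j
  rw [Matrix.neg_apply, Matrix.mul_apply, Matrix.mul_apply, h i j]

theorem gHF : gH * gF = gF * gH := by
  have h : ∀ i j, (∑ k, gH i k * gF k j) = (∑ k, gF i k * gH k j) := by decide +kernel
  ext i j
  rw [Matrix.mul_apply, Matrix.mul_apply, h i j]

theorem gK_s (i j : Fin 16) : gK i j ^ 2 + (1 : Matrix (Fin 16) (Fin 16) ℤ) i j = 1 := by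
  have h : ∀ i j, gK i j ^ 2 + (if i = j then 1 else 0) = 1 := by decide +kernel
  rw [Matrix.one_apply]; exact h i j

theorem gB_s (i j : Fin 16) : gB i j ^ 2 = 1 := by
  have h : ∀ i j, gB i j ^ 2 = 1 := by decide +kernel
  exact h i j

theorem gH_s (i j : Fin 16) : gH i j ^ 2 = 1 := by
  have h : ∀ i j, gH i j ^ 2 = 1 := by decide +kernel
  exact h i j

theorem gF_s (i j : Fin 16) : gF i j ^ 2 = 1 := by
  have h : ∀ i j, gF i j ^ 2 = 1 := by decide +kernel
  exact h i j

end Pool.Agent.Lib.MP_be2ccc_co.AS
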