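import Mathlib
import Pool.Agent.Lib.MP_be2ccc_co.AS.Gadget

/-!
# `s` fermionic modes over a skew conference matrix of order `16 ^ s`
-/

set_option autoImplicit false

namespace Pool.Agent.Lib.MP_be2ccc_co.AS

open Matrix Kronecker

/-- `K` skew conference matrix, `G` symmetric Hadamard matrix, `B i` full sign matrices with the
canonical anticommutation relations, everything anticommutes -/
structure Modes {ι : Type} [Fintype ι] [DecidableEq ι] (n : ℤ) (s : ℕ) (K G : Matrix ι ι ℤ)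
    (B : Fin s → Matrix ι ι ℤ) : Prop where
  Kt : Kᵀ = -K
  Gt : Gᵀ = G
  KK : K * K = -((n - 1) • (1 : Matrix ι ι ℤ))
  GG : G * G = n • (1 : Matrix ι ι ℤ)
  KG : K * G = -(G * K)
  KB : ∀ i, K * B i = -(B i * K)
  GB : ∀ i, G * B i = -(B i * G)
  BB : ∀ i j, B i * B j = -(B j * B i)
  BBt : ∀ i j, B i * (B j)ᵀ + (B j)ᵀ * B i =
    if i = j then (2 * n) • (1 : Matrix ι ι ℤ) else 0
  s1 : ∀ x y, K x y ^ 2 + (1 : Matrix ι ι ℤ) x y = 1
  s2 : ∀ x y, G x y ^ 2 = 1
  s3 : ∀ i x y, B i x y ^ 2 = 1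

theorem modes_zero : Modes (ι := Unit) 1 0 0 1 (fun i => i.elim0) := by
  constructor
  case KB => exact fun i => i.elim0
  case GB => exact fun i => i.elim0
  case BB => exact fun i => i.elim0
  case BBt => exact fun i => i.elim0
  case s3 => exact fun i => i.elim0
  all_goals simp

variable {ι κ : Type} [Fintype ι] [DecidableEq ι] [Fintype κ] [DecidableEq κ]

theorem neg_kr (A : Matrix ι ι ℤ) (B : Matrix κ κ ℤ) : (-A) ⊗ₖ B = -(A ⊗ₖ B) := by
  ext x y; simp [Matrix.kroneckerMap_apply]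

theorem kr_neg (A : Matrix ι ι ℤ) (B : Matrix κ κ ℤ) : A ⊗ₖ (-B) = -(A ⊗ₖ B) := by
  ext x y; simp [Matrix.kroneckerMap_apply]

theorem kr_t (A : Matrix ι ι ℤ) (B : Matrix κ κ ℤ) : (A ⊗ₖ B)ᵀ = Aᵀ ⊗ₖ Bᵀ := by
  ext x y; simp [Matrix.kroneckerMap_apply]

theorem modes_succ {n : ℤ} {s : ℕ} {K G : Matrix ι ι ℤ} {B : Fin s → Matrix ι ι ℤ}
    (h : Modes n s K G B) :
    Modes (n * 16) (s + 1) ((1 : Matrix ι ι ℤ) ⊗ₖ gK + K ⊗ₖ gH) (G ⊗ₖ gF)
      (Fin.snoc (α := fun _ => Matrix (ι × Fin 16) (ι × Fin 16) ℤ) (fun i => B i ⊗ₖ gH)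
        (G ⊗ₖ gB)) := by
  have hBH : gB * gH = gH * gB := gHB.symm
  have hBHt : gBᵀ * gH = gH * gBᵀ := by
    have := congrArg Matrix.transpose gHB
    rw [Matrix.transpose_mul, Matrix.transpose_mul, gH_t] at this
    exact this
  constructor
  case Kt =>
    rw [Matrix.transpose_add, kr_t, kr_t, Matrix.transpose_one, gK_t, h.Kt, gH_t, kr_neg, neg_kr,
      neg_add]
  case Gt => rw [kr_t, h.Gt, gF_t]
  case KK =>
    rw [add_mul, mul_add, mul_add, ← Matrix.mul_kronecker_mul, ← Matrix.mul_kronecker_mul,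
      ← Matrix.mul_kronecker_mul, ← Matrix.mul_kronecker_mul, one_mul, one_mul, mul_one, gKH,
      kr_neg, h.KK, gH_sq, gK_sq, kr_neg, neg_kr, Matrix.smul_kronecker, Matrix.kronecker_smul,
      Matrix.kronecker_smul, Matrix.one_kronecker_one]
    module
  case GG =>
    rw [← Matrix.mul_kronecker_mul, h.GG, gF_sq, Matrix.smul_kronecker, Matrix.kronecker_smul,
      Matrix.one_kronecker_one]
    module
  case KG =>
    rw [add_mul, mul_add, ← Matrix.mul_kronecker_mul, ← Matrix.mul_kronecker_mul,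
      ← Matrix.mul_kronecker_mul, ← Matrix.mul_kronecker_mul, one_mul, mul_one, gKF, h.KG, gHF,
      kr_neg, neg_kr, neg_add]
  case KB =>
    refine Fin.lastCases ?_ fun i => ?_
    · rw [Fin.snoc_last, add_mul, mul_add, ← Matrix.mul_kronecker_mul, ← Matrix.mul_kronecker_mul,
        ← Matrix.mul_kronecker_mul, ← Matrix.mul_kronecker_mul, one_mul, mul_one, gKB, h.KG, hBH,
        kr_neg, neg_kr, neg_add]
    · rw [Fin.snoc_castSucc, add_mul, mul_add, ← Matrix.mul_kronecker_mul,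
        ← Matrix.mul_kronecker_mul, ← Matrix.mul_kronecker_mul, ← Matrix.mul_kronecker_mul,
        one_mul, mul_one, gKH, h.KB, kr_neg, neg_kr, neg_add]
  case GB =>
    refine Fin.lastCases ?_ fun i => ?_
    · rw [Fin.snoc_last, ← Matrix.mul_kronecker_mul, ← Matrix.mul_kronecker_mul, gFB, kr_neg]
    · rw [Fin.snoc_castSucc, ← Matrix.mul_kronecker_mul, ← Matrix.mul_kronecker_mul, gHF, h.GB,
        neg_kr]
  case BB =>
    refine Fin.lastCases ?_ fun i => ?_
    · refine Fin.lastCases ?_ fun j => ?_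
      · rw [Fin.snoc_last, ← Matrix.mul_kronecker_mul, gB_sq, Matrix.kronecker_zero, neg_zero]
      · rw [Fin.snoc_last, Fin.snoc_castSucc, ← Matrix.mul_kronecker_mul,
          ← Matrix.mul_kronecker_mul, hBH, h.GB, neg_kr]
    · refine Fin.lastCases ?_ fun j => ?_
      · rw [Fin.snoc_last, Fin.snoc_castSucc, ← Matrix.mul_kronecker_mul,
          ← Matrix.mul_kronecker_mul, hBH, h.GB, neg_kr, neg_neg]
      · rw [Fin.snoc_castSucc, Fin.snoc_castSucc, ← Matrix.mul_kronecker_mul,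
          ← Matrix.mul_kronecker_mul, h.BB i j, neg_kr]
  case BBt =>
    refine Fin.lastCases ?_ fun i => ?_
    · refine Fin.lastCases ?_ fun j => ?_
      · rw [Fin.snoc_last, if_pos rfl, kr_t, ← Matrix.mul_kronecker_mul,
          ← Matrix.mul_kronecker_mul, h.Gt, ← Matrix.kronecker_add, gB_car, h.GG,
          Matrix.smul_kronecker, Matrix.kronecker_smul, Matrix.one_kronecker_one]
        module
      · have hne : Fin.last s ≠ Fin.castSucc j := (Fin.castSucc_lt_last j).ne'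
        have hGt : G * (B j)ᵀ = -((B j)ᵀ * G) := by
          have := congrArg Matrix.transpose (h.GB j)
          rw [Matrix.transpose_neg, Matrix.transpose_mul, Matrix.transpose_mul, h.Gt] at this
          rw [this, neg_neg]
        rw [Fin.snoc_last, Fin.snoc_castSucc, if_neg hne, kr_t, ← Matrix.mul_kronecker_mul,
          ← Matrix.mul_kronecker_mul, gH_t, hBH, hGt, neg_kr, neg_add_cancel]
    · refine Fin.lastCases ?_ fun j => ?_
      · have hne : Fin.castSucc i ≠ Fin.last s := (Fin.castSucc_lt_last i).ne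
        rw [Fin.snoc_last, Fin.snoc_castSucc, if_neg hne, kr_t, ← Matrix.mul_kronecker_mul,
          ← Matrix.mul_kronecker_mul, h.Gt, hBHt, h.GB, neg_kr, add_neg_cancel]
      · rw [Fin.snoc_castSucc, Fin.snoc_castSucc, kr_t, ← Matrix.mul_kronecker_mul,
          ← Matrix.mul_kronecker_mul, gH_t, ← Matrix.add_kronecker, h.BBt i j, gH_sq]
        by_cases hij : i = j
        · rw [if_pos hij, if_pos (by rw [hij]), Matrix.smul_kronecker, Matrix.kronecker_smul,
            Matrix.one_kronecker_one]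
          module
        · rw [if_neg hij, if_neg (fun e => hij (Fin.castSucc_injective _ e)),
            Matrix.zero_kronecker]
  case s1 =>
    rintro ⟨x, u⟩ ⟨y, v⟩
    have h1 := h.s1 x y
    have h2 := gK_s u v
    have h3 := gH_s u v
    simp only [Matrix.add_apply, Matrix.kroneckerMap_apply, Matrix.one_apply, Prod.mk.injEq] at *
    by_cases hxy : x = y
    · have hK : K x y = 0 := by
        rw [if_pos hxy] at h1
        exact pow_eq_zero_iff (two_ne_zero) |>.mp (by linarith)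
      rw [hK, if_pos hxy]
      simpa [hxy] using h2
    · rw [if_neg hxy] at h1
      rw [if_neg hxy, if_neg (fun e => hxy e.1), zero_mul, zero_add, mul_pow, h3]
      linarith
  case s2 =>
    rintro ⟨x, u⟩ ⟨y, v⟩
    rw [Matrix.kroneckerMap_apply, mul_pow, h.s2, gF_s, mul_one]
  case s3 =>
    refine Fin.lastCases ?_ fun i => ?_
    · rintro ⟨x, u⟩ ⟨y, v⟩
      rw [Fin.snoc_last, Matrix.kroneckerMap_apply, mul_pow, h.s2, gB_s, mul_one]
    · rintro ⟨x, u⟩ ⟨y, v⟩
      rw [Fin.snoc_castSucc, Matrix.kroneckerMap_apply, mul_pow, h.s3, gH_s, mul_one]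

theorem modes_exist (s : ℕ) : ∃ (ι : Type) (_ : Fintype ι) (_ : DecidableEq ι)
    (K G : Matrix ι ι ℤ) (B : Fin s → Matrix ι ι ℤ),
    Fintype.card ι = 16 ^ s ∧ Modes (16 ^ s : ℤ) s K G B := by
  induction s with
  | zero => exact ⟨Unit, inferInstance, inferInstance, 0, 1, fun i => i.elim0, by simp,
      by simpa using modes_zero⟩
  | succ s ih =>
    obtain ⟨ι, _, _, K, G, B, hc, h⟩ := ih
    refine ⟨ι × Fin 16, inferInstance, inferInstance, (1 : Matrix ι ι ℤ) ⊗ₖ gK + K ⊗ₖ gH,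
      G ⊗ₖ gF, Fin.snoc (α := fun _ => Matrix (ι × Fin 16) (ι × Fin 16) ℤ)
        (fun i => B i ⊗ₖ gH) (G ⊗ₖ gB), ?_, ?_⟩
    · rw [Fintype.card_prod, hc, Fintype.card_fin, pow_succ]
    · rw [pow_succ]
      exact modes_succ h

end Pool.Agent.Lib.MP_be2ccc_co.AS
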