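import Mathlib
import Pool.Agent.Lib.MP_be2ccc_co.Weigh
import Pool.Agent.Lib.MP_be2ccc_co.AS.Modes
import Pool.Agent.Lib.MP_be2ccc_co.AS.Golay

/-!
# Skew conference matrices of order `2 ^ (8 r) (2 h + 1)`, `h < 2 ^ r`
-/

set_option autoImplicit false

namespace Pool.Agent.Lib.MP_be2ccc_co.AS

open Matrix Kronecker Polynomial

/-- a sum with at most one nonzero term -/
theorem sum_sq {s : ℕ} (b x : Fin s → ℤ) (hb : ∀ i, b i ^ 2 = 1) (t : Finset (Fin s)) :
    (∑ i ∈ t, x i ^ 2 = 0 → ∑ i ∈ t, b i * x i = 0) ∧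
      (∑ i ∈ t, x i ^ 2 = 1 → (∑ i ∈ t, b i * x i) ^ 2 = 1) := by
  induction t using Finset.induction_on with
  | empty => simp
  | insert a t ha ih =>
    rw [Finset.sum_insert ha, Finset.sum_insert ha]
    have h0 : 0 ≤ ∑ i ∈ t, x i ^ 2 := Finset.sum_nonneg fun i _ => sq_nonneg _
    have h1 : 0 ≤ x a ^ 2 := sq_nonneg _
    constructor
    · intro h
      have h2 : x a ^ 2 = 0 := by linarith
      have h3 : x a = 0 := pow_eq_zero_iff (two_ne_zero) |>.mp h2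
      rw [ih.1 (by linarith), h3]; ring
    · intro h
      rcases (by omega : x a ^ 2 = 0 ∧ ∑ i ∈ t, x i ^ 2 = 1 ∨ x a ^ 2 = 1 ∧ ∑ i ∈ t, x i ^ 2 = 0)
        with ⟨h2, h3⟩ | ⟨h2, h3⟩
      · have h4 : x a = 0 := pow_eq_zero_iff (two_ne_zero) |>.mp h2
        rw [h4, mul_zero, zero_add]
        exact ih.2 h3
      · rw [ih.1 h3, add_zero, mul_pow, hb, h2, one_mul]

variable {ι κ : Type} [Fintype ι] [DecidableEq ι] [Fintype κ] [DecidableEq κ]

/-- the skew conference matrix built from modes and complementary commuting matrices -/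
theorem conf_of_modes {n : ℤ} {s : ℕ} {K G : Matrix ι ι ℤ} {B : Fin s → Matrix ι ι ℤ}
    (h : Modes n s K G B) (X : Fin s → Matrix κ κ ℤ) (c : ℤ)
    (hc : ∀ i j, X i * X j = X j * X i) (hct : ∀ i j, X i * (X j)ᵀ = (X j)ᵀ * X i)
    (hX : ∑ i, X i * (X i)ᵀ = c • (1 : Matrix κ κ ℤ)) :
    ∃ C : Matrix (ι × κ) (ι × κ) ℤ, C = K ⊗ₖ (1 : Matrix κ κ ℤ) +
        ∑ i, B i ⊗ₖ X i - (∑ i, B i ⊗ₖ X i)ᵀ ∧
      C * Cᵀ = (n - 1 + 2 * n * c) • (1 : Matrix (ι × κ) (ι × κ) ℤ) := by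
  refine ⟨_, rfl, ?_⟩
  obtain ⟨Z, hZ⟩ : ∃ Z, Z = ∑ i, B i ⊗ₖ X i := ⟨_, rfl⟩
  obtain ⟨L, hL⟩ : ∃ L, L = K ⊗ₖ (1 : Matrix κ κ ℤ) := ⟨_, rfl⟩
  have hLt : Lᵀ = -L := by rw [hL, kr_t, h.Kt, Matrix.transpose_one, neg_kr]
  have hLL : L * L = -((n - 1) • (1 : Matrix (ι × κ) (ι × κ) ℤ)) := by
    rw [hL, ← Matrix.mul_kronecker_mul, h.KK, neg_kr, Matrix.smul_kronecker, mul_one,
      Matrix.one_kronecker_one]
  have hLZ : L * Z = -(Z * L) := by
    rw [hL, hZ, Finset.mul_sum, Finset.sum_mul, ← Finset.sum_neg_distrib]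
    refine Finset.sum_congr rfl fun i _ => ?_
    rw [← Matrix.mul_kronecker_mul, ← Matrix.mul_kronecker_mul, h.KB, one_mul, mul_one, neg_kr]
  have hLZt : L * Zᵀ = -(Zᵀ * L) := by
    have h1 := congrArg Matrix.transpose hLZ
    rw [Matrix.transpose_neg, Matrix.transpose_mul, Matrix.transpose_mul, hLt] at h1
    rw [mul_neg, neg_mul, neg_neg] at h1
    rw [← h1]
  have hZZ : Z * Z = 0 := by
    have h1 : Z * Z = ∑ i, ∑ j, (B i * B j) ⊗ₖ (X i * X j) := by
      rw [hZ, Finset.sum_mul]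
      refine Finset.sum_congr rfl fun i _ => ?_
      rw [Finset.mul_sum]
      refine Finset.sum_congr rfl fun j _ => ?_
      rw [← Matrix.mul_kronecker_mul]
    have h2 : Z * Z = -(Z * Z) := by
      conv_rhs => rw [h1, Finset.sum_comm, ← Finset.sum_neg_distrib]
      rw [h1]
      refine Finset.sum_congr rfl fun i _ => ?_
      rw [← Finset.sum_neg_distrib]
      refine Finset.sum_congr rfl fun j _ => ?_
      rw [h.BB i j, neg_kr, hc i j]
    have h3 : (2 : ℤ) • (Z * Z) = 0 := by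
      rw [two_smul]
      nth_rewrite 2 [h2]
      exact add_neg_cancel _
    exact (smul_eq_zero.1 h3).resolve_left two_ne_zero
  have hZtZt : Zᵀ * Zᵀ = 0 := by
    rw [← Matrix.transpose_mul, hZZ, Matrix.transpose_zero]
  have hcar : Z * Zᵀ + Zᵀ * Z = (2 * n * c) • (1 : Matrix (ι × κ) (ι × κ) ℤ) := by
    have hZt : Zᵀ = ∑ j, (B j)ᵀ ⊗ₖ (X j)ᵀ := by
      rw [hZ, Matrix.transpose_sum]
      exact Finset.sum_congr rfl fun i _ => kr_t _ _
    have h1 : Z * Zᵀ = ∑ i, ∑ j, (B i * (B j)ᵀ) ⊗ₖ (X i * (X j)ᵀ) := by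
      rw [hZt, hZ, Finset.sum_mul]
      refine Finset.sum_congr rfl fun i _ => ?_
      rw [Finset.mul_sum]
      refine Finset.sum_congr rfl fun j _ => ?_
      rw [← Matrix.mul_kronecker_mul]
    have h2 : Zᵀ * Z = ∑ i, ∑ j, ((B j)ᵀ * B i) ⊗ₖ (X i * (X j)ᵀ) := by
      rw [Finset.sum_comm, hZt, hZ, Finset.sum_mul]
      refine Finset.sum_congr rfl fun j _ => ?_
      rw [Finset.mul_sum]
      refine Finset.sum_congr rfl fun i _ => ?_
      rw [← Matrix.mul_kronecker_mul, hct]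
    rw [h1, h2, ← Finset.sum_add_distrib]
    have h3 : ∀ i, (∑ j, (B i * (B j)ᵀ) ⊗ₖ (X i * (X j)ᵀ)) +
        ∑ j, ((B j)ᵀ * B i) ⊗ₖ (X i * (X j)ᵀ) =
        ((2 * n) • (1 : Matrix ι ι ℤ)) ⊗ₖ (X i * (X i)ᵀ) := by
      intro i
      rw [← Finset.sum_add_distrib, Finset.sum_eq_single i]
      · rw [← Matrix.add_kronecker, h.BBt i i, if_pos rfl]
      · intro j _ hj
        rw [← Matrix.add_kronecker, h.BBt i j, if_neg (Ne.symm hj), Matrix.zero_kronecker]
      · intro hi; exact absurd (Finset.mem_univ _) hi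
    rw [Finset.sum_congr rfl fun i _ => h3 i]
    have h4 : ∑ i, ((2 * n) • (1 : Matrix ι ι ℤ)) ⊗ₖ (X i * (X i)ᵀ) =
        ((2 * n) • (1 : Matrix ι ι ℤ)) ⊗ₖ (∑ i, X i * (X i)ᵀ) := by
      ext ⟨a, x⟩ ⟨b, y⟩
      simp only [Matrix.sum_apply, Matrix.kroneckerMap_apply, Finset.mul_sum]
    rw [h4, hX, Matrix.smul_kronecker, Matrix.kronecker_smul, Matrix.one_kronecker_one,
      smul_smul]
  rw [← hZ, ← hL]
  have ht : (L + Z - Zᵀ)ᵀ = -(L + Z - Zᵀ) := by
    rw [Matrix.transpose_sub, Matrix.transpose_add, Matrix.transpose_transpose, hLt]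
    abel
  rw [ht, mul_neg]
  have hexp : (L + Z - Zᵀ) * (L + Z - Zᵀ) = L * L + Z * Z + Zᵀ * Zᵀ + (L * Z + Z * L) -
      (L * Zᵀ + Zᵀ * L) - (Z * Zᵀ + Zᵀ * Z) := by noncomm_ring
  rw [hexp, hLL, hZZ, hZtZt, hLZ, hLZt, hcar]
  module

/-- skew conference matrices of order `2 ^ (8 r) (2 h + 1)`, `h < 2 ^ r` -/
theorem skew_exists (h r : ℕ) (hr : h < 2 ^ r) :
    ∃ (ι : Type) (_ : Fintype ι) (_ : DecidableEq ι) (C : Matrix ι ι ℤ),
      Fintype.card ι = 2 ^ (8 * r) * (2 * h + 1) ∧ Cᵀ = -C ∧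
      (∀ x y, C x y ^ 2 + (1 : Matrix ι ι ℤ) x y = 1) ∧
      C * Cᵀ = (((2 ^ (8 * r) * (2 * h + 1) : ℕ) : ℤ) - 1) • (1 : Matrix ι ι ℤ) := by
  obtain ⟨ι, _, _, K, G, B, hcard, hM⟩ := modes_exist (2 * r)
  have : NeZero (2 * h + 1) := ⟨by omega⟩
  obtain ⟨p, hp1, hp2⟩ := golay_digits (shift (2 * h + 1)) (shift_mul_t _) (shift_comm _) r 1 h hr
  have e16 : (16 : ℕ) ^ (2 * r) = 2 ^ (8 * r) := by
    rw [show (16 : ℕ) = 2 ^ 4 by norm_num, ← pow_mul]; congr 1; ring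
  have hc1 : ∀ i j, aeval (shift (2 * h + 1)) (p i) * aeval (shift (2 * h + 1)) (p j) =
      aeval (shift (2 * h + 1)) (p j) * aeval (shift (2 * h + 1)) (p i) := fun i j => by
    rw [← map_mul, ← map_mul, mul_comm (p i) (p j)]
  have hc2 : ∀ i j, aeval (shift (2 * h + 1)) (p i) * (aeval (shift (2 * h + 1)) (p j))ᵀ =
      (aeval (shift (2 * h + 1)) (p j))ᵀ * aeval (shift (2 * h + 1)) (p i) := fun i j => by
    rw [aeval_t]
    exact aeval_comm (shift_comm _) (p i) (p j)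
  obtain ⟨C, hC, hCC⟩ := conf_of_modes hM (fun i => aeval (shift (2 * h + 1)) (p i)) (h : ℤ)
    hc1 hc2 hp2
  have hcoef : ∀ i k, 2 * h + 1 ≤ k → (p i).coeff k = 0 := by
    intro i k hk
    have h1 := hp1 k
    rw [if_neg (by omega)] at h1
    have h2 := (Finset.sum_eq_zero_iff_of_nonneg (fun i _ => sq_nonneg _)).1 h1 i
      (Finset.mem_univ _)
    exact pow_eq_zero_iff (two_ne_zero) |>.mp h2
  have hent : ∀ i (g g' : ZMod (2 * h + 1)), aeval (shift (2 * h + 1)) (p i) g g' =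
      (p i).coeff (g - g').val := fun i g g' => aeval_shift _ (p i) (hcoef i) g g'
  refine ⟨ι × ZMod (2 * h + 1), inferInstance, inferInstance, C, ?_, ?_, ?_, ?_⟩
  · rw [Fintype.card_prod, hcard, ZMod.card, e16]
  · rw [hC, Matrix.transpose_sub, Matrix.transpose_add, Matrix.transpose_transpose, kr_t, hM.Kt,
      Matrix.transpose_one, neg_kr]
    abel
  · rintro ⟨a, g⟩ ⟨b, g'⟩
    have hsum : C (a, g) (b, g') = K a b * (1 : Matrix _ _ ℤ) g g' +
        (∑ i, B i a b * (p i).coeff (g - g').val) - ∑ i, B i b a * (p i).coeff (g' - g).val := by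
      rw [hC]
      simp only [Matrix.add_apply, Matrix.sub_apply, Matrix.transpose_apply, Matrix.sum_apply,
        Matrix.kroneckerMap_apply, hent]
    have hsq1 := hp1 (g - g').val
    have hsq2 := hp1 (g' - g).val
    have hB : ∀ a b i, B i a b ^ 2 = 1 := fun a b i => hM.s3 i a b
    rw [← Matrix.one_kronecker_one, Matrix.kroneckerMap_apply]
    by_cases hg : g = g'
    · subst hg
      rw [sub_self, ZMod.val_zero, if_neg (by omega)] at hsq1
      have h1 := (sum_sq (fun i => B i a b) (fun i => (p i).coeff 0) (hB a b) Finset.univ).1 hsq1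
      have h2 := (sum_sq (fun i => B i b a) (fun i => (p i).coeff 0) (hB b a) Finset.univ).1 hsq1
      rw [hsum, sub_self, ZMod.val_zero, h1, h2, Matrix.one_apply_eq, mul_one, mul_one, add_zero,
        sub_zero]
      exact hM.s1 a b
    · have hv1 : (g - g').val < 2 * h + 1 := ZMod.val_lt _
      have hne : g - g' ≠ 0 := sub_ne_zero.2 hg
      have hv0 : (g - g').val ≠ 0 := fun e => hne ((ZMod.val_eq_zero _).1 e)
      have hv2 : (g' - g).val = 2 * h + 1 - (g - g').val := by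
        have h1 := ZMod.neg_val (g - g')
        rw [neg_sub, if_neg hne] at h1
        exact h1
      rw [hsum, Matrix.one_apply_ne hg, mul_zero, mul_zero, zero_add, add_zero]
      by_cases hlt : (g - g').val < 1 + h
      · rw [if_pos ⟨by omega, hlt⟩] at hsq1
        rw [if_neg (by omega)] at hsq2
        rw [(sum_sq (fun i => B i b a) _ (hB b a) Finset.univ).1 hsq2, sub_zero]
        exact (sum_sq (fun i => B i a b) _ (hB a b) Finset.univ).2 hsq1
      · rw [if_neg (by omega)] at hsq1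
        rw [if_pos (by omega)] at hsq2
        rw [(sum_sq (fun i => B i a b) _ (hB a b) Finset.univ).1 hsq1, zero_sub, neg_sq]
        exact (sum_sq (fun i => B i b a) _ (hB b a) Finset.univ).2 hsq2
  · rw [hCC]
    congr 1
    have e1 : (16 : ℤ) ^ (2 * r) = 2 ^ (8 * r) := by exact_mod_cast e16
    rw [e1]
    push_cast
    ring

/-- skew Hadamard matrices of order `2 ^ (8 r) (2 h + 1)`, `h < 2 ^ r` -/
theorem skew_hadamard (h r : ℕ) (hr : h < 2 ^ r) :
    ∃ H : Matrix (Fin (2 ^ (8 * r) * (2 * h + 1))) (Fin (2 ^ (8 * r) * (2 * h + 1))) ℤ,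
      (∀ i j, H i j = 1 ∨ H i j = -1) ∧ H + Hᵀ = (2 : ℤ) • 1 ∧
      H * Hᵀ = ((2 ^ (8 * r) * (2 * h + 1) : ℕ) : ℤ) • 1 := by
  obtain ⟨ι, _, _, C, hcard, hCt, hs, hCC⟩ := skew_exists h r hr
  have e := Fintype.equivFinOfCardEq hcard
  refine ⟨(1 + C).submatrix e.symm e.symm, fun i j => ?_, ?_, ?_⟩
  · have h1 := hs (e.symm i) (e.symm j)
    rw [Matrix.submatrix_apply, Matrix.add_apply]
    by_cases hij : e.symm i = e.symm j
    · rw [hij, Matrix.one_apply_eq] at h1 ⊢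
      have h2 : C (e.symm j) (e.symm j) = 0 := pow_eq_zero_iff (two_ne_zero) |>.mp (by linarith)
      rw [h2]; left; rfl
    · rw [Matrix.one_apply_ne hij] at h1 ⊢
      have h8 : (C (e.symm i) (e.symm j) - 1) * (C (e.symm i) (e.symm j) + 1) = 0 := by
        linear_combination h1
      rcases mul_eq_zero.1 h8 with h7 | h7
      · left; linarith
      · right; linarith
  · rw [transpose_submatrix, Matrix.transpose_add, Matrix.transpose_one, hCt]
    have h3 : (1 : Matrix ι ι ℤ) + C + (1 + -C) = (2 : ℤ) • 1 := by module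
    show ((1 : Matrix ι ι ℤ) + C + (1 + -C)).submatrix e.symm e.symm = _
    rw [h3, submatrix_smul]
    simp only [Pi.smul_apply, submatrix_one_equiv]
  · rw [transpose_submatrix, submatrix_mul_equiv, Matrix.transpose_add, Matrix.transpose_one, hCt]
    have h3 : ((1 : Matrix ι ι ℤ) + C) * (1 + -C) =
        ((2 ^ (8 * r) * (2 * h + 1) : ℕ) : ℤ) • 1 := by
      rw [← hCt]
      have h4 : ((1 : Matrix ι ι ℤ) + C) * (1 + Cᵀ) = 1 + (C + Cᵀ) + C * Cᵀ := by noncomm_ring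
      rw [h4, hCC, hCt]
      module
    rw [h3, submatrix_smul]
    simp only [Pi.smul_apply, submatrix_one_equiv]

end Pool.Agent.Lib.MP_be2ccc_co.AS
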