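import Mathlib
import Pool.Agent.Lib.MP_be2ccc_co.Weigh
import Pool.Agent.Lib.MP_be2ccc_co.AS.Modes
import Pool.Agent.Lib.MP_be2ccc_co.AS.Golay
import Pool.Agent.Lib.MP_be2ccc_co.AS.Main
import Pool.Agent.Lib.MP_be2ccc_co.AS.Chains

/-!
# All weights in the orders `2 ^ t * m`
-/

set_option autoImplicit false

namespace Pool.Agent.Lib.MP_be2ccc_co.AS

open Matrix Kronecker Polynomial

section

variable {κ : Type} [Fintype κ] [DecidableEq κ]

/-- binary digits, with the lengths of the blocks -/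
theorem golay_blocks (S : Matrix κ κ ℤ) (hS : S * Sᵀ = 1) (hc : Commute S Sᵀ) (R : ℕ) :
    ∀ u h : ℕ, h < 2 ^ R → ∃ (p : Fin R → Fin 2 → ℤ[X]) (L : Fin R → ℕ),
      (∀ k, ∑ i, ((p i 0).coeff k ^ 2 + (p i 1).coeff k ^ 2) =
        if u ≤ k ∧ k < u + h then 1 else 0) ∧
      (∀ i, aeval S (p i 0) * (aeval S (p i 0))ᵀ + aeval S (p i 1) * (aeval S (p i 1))ᵀ =
        (L i : ℤ) • (1 : Matrix κ κ ℤ)) ∧ ∑ i, L i = h := by
  induction R with
  | zero =>
    intro u h hh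
    have h0 : h = 0 := by simpa using hh
    subst h0
    refine ⟨fun i => i.elim0, fun i => i.elim0, fun k => ?_, fun i => i.elim0, by simp⟩
    rw [if_neg (by omega)]; simp
  | succ R ih =>
    intro u h hh
    rw [pow_succ] at hh
    by_cases hr : 2 ^ R ≤ h
    · obtain ⟨a, b, h1, h2⟩ := golay_block S hS hc R u
      obtain ⟨p, L, h3, h4, h5⟩ := ih (u + 2 ^ R) (h - 2 ^ R) (by omega)
      refine ⟨(Fin.cons ![a, b] p : Fin (R + 1) → Fin 2 → ℤ[X]),
        (Fin.cons (2 ^ R) L : Fin (R + 1) → ℕ), fun k => ?_, ?_, ?_⟩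
      · rw [Fin.sum_univ_succ]
        simp only [Fin.cons_zero, Fin.cons_succ, Matrix.cons_val_zero, Matrix.cons_val_one]
        rw [h3 k, h1 k]
        split_ifs <;> omega
      · refine Fin.cases ?_ ?_
        · simp only [Fin.cons_zero, Matrix.cons_val_zero, Matrix.cons_val_one]
          rw [h2]; push_cast; rfl
        · intro i
          simp only [Fin.cons_succ]
          exact h4 i
      · rw [Fin.sum_univ_succ]
        simp only [Fin.cons_zero, Fin.cons_succ]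
        rw [h5]; omega
    · obtain ⟨p, L, h3, h4, h5⟩ := ih u h (by omega)
      refine ⟨(Fin.cons ![0, 0] p : Fin (R + 1) → Fin 2 → ℤ[X]),
        (Fin.cons 0 L : Fin (R + 1) → ℕ), fun k => ?_, ?_, ?_⟩
      · rw [Fin.sum_univ_succ]
        simp only [Fin.cons_zero, Fin.cons_succ, Matrix.cons_val_zero, Matrix.cons_val_one]
        rw [h3 k]
        simp
      · refine Fin.cases ?_ ?_
        · simp [Fin.cons_zero]
        · intro i
          simp only [Fin.cons_succ]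
          exact h4 i
      · rw [Fin.sum_univ_succ]
        simp only [Fin.cons_zero, Fin.cons_succ]
        rw [h5]; omega

end

variable {ι κ : Type} [Fintype ι] [DecidableEq ι] [Fintype κ] [DecidableEq κ]

/-- the anticommuting skew matrices `B i ⊗ X i - (B i ⊗ X i)ᵀ` -/
theorem anti_pairs {n : ℤ} {s : ℕ} {K G : Matrix ι ι ℤ} {B : Fin s → Matrix ι ι ℤ}
    (h : Modes n s K G B) (X : Fin s → Matrix κ κ ℤ)
    (hc : ∀ i j, X i * X j = X j * X i) (hct : ∀ i j, X i * (X j)ᵀ = (X j)ᵀ * X i)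
    (z : Fin s → Matrix (ι × κ) (ι × κ) ℤ) (hz : ∀ i, z i = B i ⊗ₖ X i - (B i ⊗ₖ X i)ᵀ) :
    (∀ i, (z i)ᵀ = -z i) ∧ (∀ i j, i ≠ j → z i * z j = -(z j * z i)) ∧
    (∀ i, z i * z i = -((2 * n) • ((1 : Matrix ι ι ℤ) ⊗ₖ (X i * (X i)ᵀ)))) ∧
    (∀ i, (K ⊗ₖ (1 : Matrix κ κ ℤ)) * z i = -(z i * (K ⊗ₖ (1 : Matrix κ κ ℤ)))) := by
  -- the blocks
  have hbb : ∀ i j, (B i ⊗ₖ X i) * (B j ⊗ₖ X j) = -((B j ⊗ₖ X j) * (B i ⊗ₖ X i)) := by
    intro i j
    rw [← Matrix.mul_kronecker_mul, ← Matrix.mul_kronecker_mul, h.BB i j, neg_kr, hc i j]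
  have hbb2 : ∀ i, (B i ⊗ₖ X i) * (B i ⊗ₖ X i) = 0 := by
    intro i
    have h2 := hbb i i
    have h3 : (2 : ℤ) • ((B i ⊗ₖ X i) * (B i ⊗ₖ X i)) = 0 := by
      rw [two_smul]
      nth_rewrite 2 [h2]
      exact add_neg_cancel _
    exact (smul_eq_zero.1 h3).resolve_left two_ne_zero
  have hbbt : ∀ i j, (B i ⊗ₖ X i) * (B j ⊗ₖ X j)ᵀ + (B j ⊗ₖ X j)ᵀ * (B i ⊗ₖ X i) =
      if i = j then (2 * n) • ((1 : Matrix ι ι ℤ) ⊗ₖ (X i * (X i)ᵀ)) else 0 := by
    intro i j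
    rw [kr_t, ← Matrix.mul_kronecker_mul, ← Matrix.mul_kronecker_mul, ← hct i j,
      ← Matrix.add_kronecker, h.BBt i j]
    by_cases hij : i = j
    · subst hij
      rw [if_pos rfl, if_pos rfl, Matrix.smul_kronecker]
    · rw [if_neg hij, if_neg hij, Matrix.zero_kronecker]
  have hKb : ∀ i, (K ⊗ₖ (1 : Matrix κ κ ℤ)) * (B i ⊗ₖ X i) =
      -((B i ⊗ₖ X i) * (K ⊗ₖ (1 : Matrix κ κ ℤ))) := by
    intro i
    rw [← Matrix.mul_kronecker_mul, ← Matrix.mul_kronecker_mul, h.KB, one_mul, mul_one, neg_kr]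
  have hLt : (K ⊗ₖ (1 : Matrix κ κ ℤ))ᵀ = -(K ⊗ₖ (1 : Matrix κ κ ℤ)) := by
    rw [kr_t, h.Kt, Matrix.transpose_one, neg_kr]
  obtain ⟨b, hb⟩ : ∃ b : Fin s → Matrix (ι × κ) (ι × κ) ℤ, ∀ i, b i = B i ⊗ₖ X i :=
    ⟨_, fun _ => rfl⟩
  obtain ⟨L, hL⟩ : ∃ L, L = K ⊗ₖ (1 : Matrix κ κ ℤ) := ⟨_, rfl⟩
  simp only [← hb, ← hL] at hbb hbb2 hbbt hKb hLt hz ⊢
  refine ⟨fun i => ?_, fun i j hij => ?_, fun i => ?_, fun i => ?_⟩
  · rw [hz, Matrix.transpose_sub, Matrix.transpose_transpose, neg_sub]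
  · have e1 := hbb i j
    have e2 : (b i)ᵀ * (b j)ᵀ = -((b j)ᵀ * (b i)ᵀ) := by
      rw [← Matrix.transpose_mul, ← Matrix.transpose_mul, hbb j i, Matrix.transpose_neg]
    have e3 : b i * (b j)ᵀ = -((b j)ᵀ * b i) := by
      have := hbbt i j
      rw [if_neg hij] at this
      exact eq_neg_of_add_eq_zero_left this
    have e4 : (b i)ᵀ * b j = -(b j * (b i)ᵀ) := by
      have := hbbt j i
      rw [if_neg (Ne.symm hij)] at this
      exact eq_neg_of_add_eq_zero_right this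
    rw [hz, hz]
    simp only [mul_sub, sub_mul]
    rw [e1, e2, e3, e4]
    abel
  · have e1 := hbb2 i
    have e2 : (b i)ᵀ * (b i)ᵀ = 0 := by rw [← Matrix.transpose_mul, e1, Matrix.transpose_zero]
    have e3 := hbbt i i
    rw [if_pos rfl] at e3
    rw [← e3, hz]
    simp only [mul_sub, sub_mul]
    rw [e1, e2]
    abel
  · have h1 := congrArg Matrix.transpose (hKb i)
    rw [Matrix.transpose_neg, Matrix.transpose_mul, Matrix.transpose_mul, hLt] at h1
    rw [mul_neg, neg_mul, neg_neg] at h1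
    rw [hz, mul_sub, sub_mul, hKb i, ← h1]
    abel

theorem small_sq (b0 b1 b2 b3 x0 x1 x2 x3 : ℤ) (h0 : b0 ^ 2 = 1) (h1 : b1 ^ 2 = 1)
    (h2 : b2 ^ 2 = 1) (h3 : b3 ^ 2 = 1) (h : x0 ^ 2 + x1 ^ 2 + x2 ^ 2 + x3 ^ 2 ≤ 1) :
    (b0 * x0 - b2 * x2 + (b1 * x1 - b3 * x3)) ^ 2 = x0 ^ 2 + x1 ^ 2 + (x2 ^ 2 + x3 ^ 2) := by
  have hb : ∀ i : Fin 4, (![b0, b1, -b2, -b3] : Fin 4 → ℤ) i ^ 2 = 1 := by
    intro i
    fin_cases i <;> simp [h0, h1, h2, h3]
  have key := sum_sq ![b0, b1, -b2, -b3] ![x0, x1, x2, x3] hb Finset.univ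
  rw [Fin.sum_univ_four, Fin.sum_univ_four] at key
  simp only [Matrix.cons_val_zero, Matrix.cons_val_one, Matrix.cons_val] at key
  have h4 : 0 ≤ x0 ^ 2 + x1 ^ 2 + x2 ^ 2 + x3 ^ 2 := by positivity
  rcases (by omega : x0 ^ 2 + x1 ^ 2 + x2 ^ 2 + x3 ^ 2 = 0 ∨
    x0 ^ 2 + x1 ^ 2 + x2 ^ 2 + x3 ^ 2 = 1) with h5 | h5
  · have h6 := key.1 h5
    have h7 : b0 * x0 - b2 * x2 + (b1 * x1 - b3 * x3) = 0 := by linear_combination h6
    rw [h7]; linarith
  · have h6 := key.2 h5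
    have h7 : b0 * x0 - b2 * x2 + (b1 * x1 - b3 * x3) =
      b0 * x0 + b1 * x1 + -b2 * x2 + -b3 * x3 := by ring
    rw [h7, h6]; linarith

/-- all weights `k ≤ 2 ^ r * n₁ * m`, where `m = 2 h + 1`, `h < 2 ^ R`, `n₁ = 2 ^ (8 R)`, as soon
as `n₁ m ≤ 2 ^ r` -/
theorem all_weights (h R r k : ℕ) (hR : h < 2 ^ R)
    (hr : 2 ^ (8 * R) * (2 * h + 1) ≤ 2 ^ r)
    (hk : k ≤ 2 ^ r * (2 ^ (8 * R) * (2 * h + 1))) :
    HasW (2 ^ r * (2 ^ (8 * R) * (2 * h + 1))) k := by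
  obtain ⟨ι, _, _, K, G, B, hcard, hM⟩ := modes_exist (R * 2)
  have : NeZero (2 * h + 1) := ⟨by omega⟩
  obtain ⟨S, hSdef⟩ : ∃ S, S = shift (2 * h + 1) := ⟨_, rfl⟩
  have hS1 : S * Sᵀ = 1 := by rw [hSdef]; exact shift_mul_t _
  have hS2 : Commute S Sᵀ := by rw [hSdef]; exact shift_comm _
  obtain ⟨p, L, hp1, hp2, hL⟩ := golay_blocks S hS1 hS2 R 1 h hR
  have e16 : (16 : ℕ) ^ (R * 2) = 2 ^ (8 * R) := by
    rw [show (16 : ℕ) = 2 ^ 4 by norm_num, ← pow_mul]; congr 1; ring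
  have hcoef : ∀ i a k, 2 * h + 1 ≤ k → (p i a).coeff k = 0 := by
    intro i a k hk
    have h1 := hp1 k
    rw [if_neg (by omega)] at h1
    have h2 := (Finset.sum_eq_zero_iff_of_nonneg (fun i _ => by positivity)).1 h1 i
      (Finset.mem_univ _)
    have h3 : (p i 0).coeff k ^ 2 = 0 ∧ (p i 1).coeff k ^ 2 = 0 := by
      have h4 := sq_nonneg ((p i 0).coeff k)
      have h5 := sq_nonneg ((p i 1).coeff k)
      constructor <;> linarith
    fin_cases a
    · exact pow_eq_zero_iff (two_ne_zero) |>.mp h3.1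
    · exact pow_eq_zero_iff (two_ne_zero) |>.mp h3.2
  have hent : ∀ i a (g g' : ZMod (2 * h + 1)), aeval S (p i a) g g' =
      (p i a).coeff (g - g').val := fun i a g g' => by
    rw [hSdef]
    exact aeval_shift _ (p i a) (hcoef i a) g g'
  obtain ⟨X, hX⟩ : ∃ X : Fin (R * 2) → Matrix (ZMod (2 * h + 1)) (ZMod (2 * h + 1)) ℤ,
      X = fun i => aeval S (p (finProdFinEquiv.symm i).1 (finProdFinEquiv.symm i).2) := ⟨_, rfl⟩
  have hXe : ∀ β a, X (finProdFinEquiv (β, a)) = aeval S (p β a) := by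
    intro β a; rw [hX]; simp only [Equiv.symm_apply_apply]
  have hc1 : ∀ i j, X i * X j = X j * X i := fun i j => by
    rw [hX]
    simp only
    rw [← map_mul, ← map_mul, mul_comm (p (finProdFinEquiv.symm i).1 (finProdFinEquiv.symm i).2)]
  have hc2 : ∀ i j, X i * (X j)ᵀ = (X j)ᵀ * X i := fun i j => by
    rw [hX]
    simp only
    rw [aeval_t]
    exact aeval_comm hS2 _ _
  obtain ⟨z, hz⟩ : ∃ z : Fin (R * 2) → Matrix (ι × ZMod (2 * h + 1)) (ι × ZMod (2 * h + 1)) ℤ,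
      ∀ i, z i = B i ⊗ₖ X i - (B i ⊗ₖ X i)ᵀ := ⟨_, fun _ => rfl⟩
  obtain ⟨z1, z2, z3, z4⟩ := anti_pairs hM X hc1 hc2 z hz
  obtain ⟨Λ, hΛ⟩ : ∃ Λ, Λ = K ⊗ₖ (1 : Matrix (ZMod (2 * h + 1)) (ZMod (2 * h + 1)) ℤ) := ⟨_, rfl⟩
  rw [← hΛ] at z4
  have hΛt : Λᵀ = -Λ := by rw [hΛ, kr_t, hM.Kt, Matrix.transpose_one, neg_kr]
  have hn1 : 1 ≤ 2 ^ (8 * R) := Nat.one_le_two_pow
  have hne : ∀ (β β' : Fin R) (a a' : Fin 2), β ≠ β' →
      finProdFinEquiv (β, a) ≠ finProdFinEquiv (β', a') := by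
    intro β β' a a' hb he
    exact hb (congrArg Prod.fst (finProdFinEquiv.injective he))
  have hne2 : ∀ (β : Fin R), finProdFinEquiv (β, (0 : Fin 2)) ≠ finProdFinEquiv (β, 1) := by
    intro β he
    have := congrArg Prod.snd (finProdFinEquiv.injective he)
    simp at this
  have e1 : (16 : ℤ) ^ (R * 2) = 2 ^ (8 * R) := by exact_mod_cast e16
  rw [e1] at z3
  have hmem := cover_members (N := R + 1)
    (Fin.cons Λ fun β => z (finProdFinEquiv (β, 0)) + z (finProdFinEquiv (β, 1)))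
    (Fin.cons (2 ^ (8 * R) - 1) fun β => 2 * 2 ^ (8 * R) * L β) r ?_ ?_ ?_ ?_ ?_ k ?_
  · rw [Fintype.card_prod, hcard, ZMod.card, e16] at hmem
    exact hmem
  · -- skew
    refine Fin.cases ?_ fun β => ?_
    · simp only [Fin.cons_zero]; exact hΛt
    · simp only [Fin.cons_succ]
      rw [Matrix.transpose_add, z1, z1, neg_add]
  · -- anticommute
    refine Fin.cases ?_ fun β => ?_
    · refine Fin.cases ?_ fun β' => ?_
      · intro h0; exact absurd rfl h0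
      · intro _
        simp only [Fin.cons_zero, Fin.cons_succ]
        rw [mul_add, add_mul, z4, z4, neg_add]
    · refine Fin.cases ?_ fun β' => ?_
      · intro _
        simp only [Fin.cons_zero, Fin.cons_succ]
        rw [mul_add, add_mul, z4, z4]; abel
      · intro hb
        have hb' : β ≠ β' := fun e => hb (by rw [e])
        simp only [Fin.cons_succ]
        simp only [mul_add, add_mul]
        rw [z2 _ _ (hne β β' 0 0 hb'), z2 _ _ (hne β β' 0 1 hb'), z2 _ _ (hne β β' 1 0 hb'),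
          z2 _ _ (hne β β' 1 1 hb')]
        abel
  · -- squares
    refine Fin.cases ?_ fun β => ?_
    · simp only [Fin.cons_zero]
      rw [hΛ, ← Matrix.mul_kronecker_mul, hM.KK, neg_kr, Matrix.smul_kronecker, mul_one,
        Matrix.one_kronecker_one, e1, Nat.cast_sub hn1]
      push_cast
      rfl
    · simp only [Fin.cons_succ]
      simp only [mul_add, add_mul]
      rw [z3, z3, z2 _ _ (hne2 β), hXe, hXe]
      have h5 : ∀ A D : Matrix (ZMod (2 * h + 1)) (ZMod (2 * h + 1)) ℤ,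
          (1 : Matrix ι ι ℤ) ⊗ₖ A + (1 : Matrix ι ι ℤ) ⊗ₖ D = (1 : Matrix ι ι ℤ) ⊗ₖ (A + D) :=
        fun A D => (Matrix.kronecker_add _ _ _).symm
      have h6 : (1 : Matrix ι ι ℤ) ⊗ₖ (aeval S (p β 0) * (aeval S (p β 0))ᵀ +
          aeval S (p β 1) * (aeval S (p β 1))ᵀ) = (1 : Matrix ι ι ℤ) ⊗ₖ ((L β : ℤ) • 1) := by
        rw [hp2 β]
      rw [← h5, Matrix.kronecker_smul, Matrix.one_kronecker_one] at h6
      have h7 : ∀ U V W : Matrix (ι × ZMod (2 * h + 1)) (ι × ZMod (2 * h + 1)) ℤ, ∀ c : ℤ,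
          -(c • U) + W + (-W + -(c • V)) = -(c • (U + V)) := by
        intro U V W c; module
      have h8 : ∀ U V W : Matrix (ι × ZMod (2 * h + 1)) (ι × ZMod (2 * h + 1)) ℤ, ∀ c : ℤ,
          -(c • U) + -W + (W + -(c • V)) = -(c • (U + V)) := by
        intro U V W c; module
      first
        | rw [h7, h6]
        | rw [h8, h6]
      push_cast
      module
  · -- disjoint
    rintro ⟨a, g⟩ ⟨b, g'⟩
    rw [Fin.sum_univ_succ]
    simp only [Fin.cons_zero, Fin.cons_succ]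
    have hterm : ∀ β, (z (finProdFinEquiv (β, 0)) + z (finProdFinEquiv (β, 1))) (a, g) (b, g') =
        B (finProdFinEquiv (β, 0)) a b * (p β 0).coeff (g - g').val -
          B (finProdFinEquiv (β, 0)) b a * (p β 0).coeff (g' - g).val +
        (B (finProdFinEquiv (β, 1)) a b * (p β 1).coeff (g - g').val -
          B (finProdFinEquiv (β, 1)) b a * (p β 1).coeff (g' - g).val) := by
      intro β
      rw [Matrix.add_apply, hz, hz, hXe, hXe]
      simp only [Matrix.sub_apply, Matrix.transpose_apply, Matrix.kroneckerMap_apply, hent]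
    have hsq1 := hp1 (g - g').val
    have hsq2 := hp1 (g' - g).val
    have hB : ∀ a b i, B i a b ^ 2 = 1 := fun a b i => hM.s3 i a b
    have htot : ∑ β, ((p β 0).coeff (g - g').val ^ 2 + (p β 1).coeff (g - g').val ^ 2 +
        ((p β 0).coeff (g' - g).val ^ 2 + (p β 1).coeff (g' - g).val ^ 2)) =
        (if 1 ≤ (g - g').val ∧ (g - g').val < 1 + h then 1 else 0) +
        (if 1 ≤ (g' - g).val ∧ (g' - g).val < 1 + h then 1 else 0) := by
      rw [Finset.sum_add_distrib, hsq1, hsq2]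
    have hΛe : Λ (a, g) (b, g') = K a b * (1 : Matrix _ _ ℤ) g g' := by
      rw [hΛ, Matrix.kroneckerMap_apply]
    have hone : (1 : Matrix (ι × ZMod (2 * h + 1)) (ι × ZMod (2 * h + 1)) ℤ) (a, g) (b, g') =
        (1 : Matrix ι ι ℤ) a b * (1 : Matrix _ _ ℤ) g g' := by
      rw [← Matrix.one_kronecker_one, Matrix.kroneckerMap_apply]
    -- total at most one
    have hle : (if 1 ≤ (g - g').val ∧ (g - g').val < 1 + h then (1 : ℤ) else 0) +
        (if 1 ≤ (g' - g).val ∧ (g' - g).val < 1 + h then 1 else 0) +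
        (1 : Matrix _ _ ℤ) g g' ≤ 1 := by
      by_cases hg : g = g'
      · subst hg
        rw [sub_self, ZMod.val_zero, if_neg (by omega), Matrix.one_apply_eq]; norm_num
      · have hne : g - g' ≠ 0 := sub_ne_zero.2 hg
        have hv0 : (g - g').val ≠ 0 := fun e => hne ((ZMod.val_eq_zero _).1 e)
        have hv2 : (g' - g).val = 2 * h + 1 - (g - g').val := by
          have h1 := ZMod.neg_val (g - g')
          rw [neg_sub, if_neg hne] at h1
          exact h1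
        rw [Matrix.one_apply_ne hg]
        by_cases hlt : (g - g').val < 1 + h
        · rw [if_pos ⟨by omega, hlt⟩, if_neg (by omega)]; norm_num
        · rw [if_neg (by omega)]
          split_ifs <;> norm_num
    have h0g : 0 ≤ (1 : Matrix (ZMod (2 * h + 1)) (ZMod (2 * h + 1)) ℤ) g g' := by
      rw [Matrix.one_apply]; split_ifs <;> norm_num
    have hu : ∀ β, (p β 0).coeff (g - g').val ^ 2 + (p β 1).coeff (g - g').val ^ 2 +
        ((p β 0).coeff (g' - g).val ^ 2 + (p β 1).coeff (g' - g).val ^ 2) ≤ 1 := by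
      intro β
      have h1 := Finset.single_le_sum (f := fun β => (p β 0).coeff (g - g').val ^ 2 +
        (p β 1).coeff (g - g').val ^ 2 + ((p β 0).coeff (g' - g).val ^ 2 +
        (p β 1).coeff (g' - g).val ^ 2)) (fun i _ => by positivity) (Finset.mem_univ β)
      rw [htot] at h1
      linarith
    have hsum : ∑ β, ((z (finProdFinEquiv (β, 0)) + z (finProdFinEquiv (β, 1)))
        (a, g) (b, g')) ^ 2 =
        ∑ β, ((p β 0).coeff (g - g').val ^ 2 + (p β 1).coeff (g - g').val ^ 2 +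
        ((p β 0).coeff (g' - g).val ^ 2 + (p β 1).coeff (g' - g).val ^ 2)) := by
      refine Finset.sum_congr rfl fun β _ => ?_
      rw [hterm β]
      exact small_sq _ _ _ _ _ _ _ _ (hB _ _ _) (hB _ _ _) (hB _ _ _) (hB _ _ _)
        (by linarith [hu β])
    rw [hsum, htot, hΛe, hone]
    have hK := hM.s1 a b
    have hgg : (1 : Matrix (ZMod (2 * h + 1)) (ZMod (2 * h + 1)) ℤ) g g' ^ 2 =
        (1 : Matrix (ZMod (2 * h + 1)) (ZMod (2 * h + 1)) ℤ) g g' := by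
      rw [Matrix.one_apply]; split_ifs <;> norm_num
    have e5 : (K a b * (1 : Matrix (ZMod (2 * h + 1)) (ZMod (2 * h + 1)) ℤ) g g') ^ 2 +
        (1 : Matrix ι ι ℤ) a b * (1 : Matrix (ZMod (2 * h + 1)) (ZMod (2 * h + 1)) ℤ) g g' =
        (1 : Matrix (ZMod (2 * h + 1)) (ZMod (2 * h + 1)) ℤ) g g' := by
      rw [mul_pow, hgg, ← add_mul, hK, one_mul]
    linarith
  · -- bounds
    refine Fin.cases ?_ fun β => ?_
    · simp only [Fin.cons_zero]
      calc 2 ^ (8 * R) - 1 ≤ 2 ^ (8 * R) * (2 * h + 1) := by nlinarith [Nat.sub_le (2 ^ (8 * R)) 1]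
        _ ≤ 2 ^ r := hr
    · simp only [Fin.cons_succ]
      have h1 : L β ≤ h := by
        rw [← hL]; exact Finset.single_le_sum (fun i _ => Nat.zero_le _) (Finset.mem_univ β)
      calc 2 * 2 ^ (8 * R) * L β ≤ 2 * 2 ^ (8 * R) * h := Nat.mul_le_mul_left _ h1
        _ ≤ 2 ^ (8 * R) * (2 * h + 1) := by nlinarith
        _ ≤ 2 ^ r := hr
  · -- total
    rw [Fin.sum_univ_succ]
    simp only [Fin.cons_zero, Fin.cons_succ]
    rw [← Finset.mul_sum, hL]
    refine hk.trans (Nat.mul_le_mul_left _ ?_)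
    have : 1 + (2 ^ (8 * R) - 1 + 2 * 2 ^ (8 * R) * h) = 2 ^ (8 * R) * (2 * h + 1) := by
      have : 1 + (2 ^ (8 * R) - 1) = 2 ^ (8 * R) := by omega
      rw [← add_assoc, this]; ring
    exact this.ge

end Pool.Agent.Lib.MP_be2ccc_co.AS
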