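import Mathlib
import Pool.Agent.Lib.MP_be2ccc_co.AS.Golay

/-!
# Blocks of length `2 ^ a * 10 ^ b`
-/

set_option autoImplicit false

namespace Pool.Agent.Lib.MP_be2ccc_co.AS

open Matrix Polynomial Finset

variable {κ : Type} [Fintype κ] [DecidableEq κ]

/-- a block of length `L` at `u`; `pr`, `qr` are the reversed polynomials -/
structure Blk (S : Matrix κ κ ℤ) (u L N : ℕ) (p q pr qr : ℤ[X]) : Prop where
  co : ∀ k, (p.coeff k) ^ 2 + (q.coeff k) ^ 2 = if u ≤ k ∧ k < u + L then 1 else 0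
  rp : aeval S pr = S ^ N * (aeval S p)ᵀ
  rq : aeval S qr = S ^ N * (aeval S q)ᵀ
  id : p * pr + q * qr = C (L : ℤ) * X ^ N

theorem pow_mul_t {S : Matrix κ κ ℤ} (hS : S * Sᵀ = 1) (hc : Commute S Sᵀ) (n : ℕ) :
    S ^ n * Sᵀ ^ n = 1 := by
  rw [← hc.mul_pow, hS, one_pow]

theorem blk_one (S : Matrix κ κ ℤ) (hS : S * Sᵀ = 1) (hc : Commute S Sᵀ) (u : ℕ) :
    Blk S u 1 u (X ^ u) 0 1 0 where
  co k := by
    rw [coeff_X_pow, coeff_zero]
    by_cases h : k = u
    · subst h; simp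
    · rw [if_neg h, if_neg (by omega)]; simp
  rp := by
    rw [aeval_t, map_pow, aeval_X, map_one, pow_mul_t hS hc]
  rq := by simp
  id := by simp

/-- reversal of an outer polynomial -/
theorem rev_outer {T : Matrix κ κ ℤ} (hT : T * Tᵀ = 1) (hc : Commute T Tᵀ) (g : ℕ) (a : ℕ → ℤ) :
    T ^ (g - 1) * (∑ i ∈ range g, a i • T ^ i)ᵀ = ∑ i ∈ range g, a (g - 1 - i) • T ^ i := by
  rw [← sum_range_reflect (fun i => a (g - 1 - i) • T ^ i) g, Matrix.transpose_sum,
    Finset.mul_sum]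
  refine Finset.sum_congr rfl fun i hi => ?_
  have hi' : i < g := Finset.mem_range.1 hi
  rw [Matrix.transpose_smul, Matrix.transpose_pow, Matrix.mul_smul]
  have e1 : g - 1 - (g - 1 - i) = i := by omega
  have e2 : T ^ (g - 1) = T ^ (g - 1 - i) * T ^ i := by
    rw [← pow_add]; congr 1; omega
  rw [e1, e2, mul_assoc, pow_mul_t hT hc, mul_one]

theorem aeval_outer (S : Matrix κ κ ℤ) (L g : ℕ) (a : ℕ → ℤ) :
    aeval S (∑ i ∈ range g, C (a i) * (X ^ L : ℤ[X]) ^ i) = ∑ i ∈ range g, a i • (S ^ L) ^ i := by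
  rw [map_sum]
  refine Finset.sum_congr rfl fun i _ => ?_
  rw [map_mul, map_pow, map_pow, aeval_X, aeval_C]
  simp [Algebra.smul_def]

/-- coefficients of an outer product -/
theorem coeff_outer (p : ℤ[X]) (u L g : ℕ) (hL : 0 < L) (c : ℕ → ℤ)
    (hp : ∀ k, ¬(u ≤ k ∧ k < u + L) → p.coeff k = 0) (k : ℕ) :
    ((∑ i ∈ range g, C (c i) * (X ^ L : ℤ[X]) ^ i) * p).coeff k =
      if u ≤ k ∧ k < u + g * L then c ((k - u) / L) * p.coeff (k - L * ((k - u) / L)) else 0 := by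
  have e0 : ∀ i, (C (c i) * (X ^ L : ℤ[X]) ^ i * p).coeff k =
      c i * (if L * i ≤ k then p.coeff (k - L * i) else 0) := by
    intro i
    rw [mul_assoc, coeff_C_mul, ← pow_mul, coeff_X_pow_mul']
  rw [Finset.sum_mul, finsetSum_coeff]
  simp only [e0]
  have key : ∀ i, u ≤ k → i ≠ (k - u) / L →
      (if L * i ≤ k then p.coeff (k - L * i) else 0) = 0 := by
    intro i huk hi
    split_ifs with h
    · apply hp
      rintro ⟨h1, h2⟩
      apply hi
      symm
      rw [Nat.div_eq_iff hL]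
      have e1 : i * L = L * i := mul_comm _ _
      constructor <;> rw [e1] <;> omega
    · rfl
  by_cases hk : u ≤ k ∧ k < u + g * L
  · rw [if_pos hk]
    have hlt : (k - u) / L < g := by
      rw [Nat.div_lt_iff_lt_mul hL]; omega
    have hle : L * ((k - u) / L) ≤ k := by
      have := Nat.mul_div_le (k - u) L
      omega
    rw [Finset.sum_eq_single ((k - u) / L)]
    · rw [if_pos hle]
    · intro i _ hi
      rw [key i hk.1 hi, mul_zero]
    · intro h; exact absurd (Finset.mem_range.2 hlt) h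
  · rw [if_neg hk]
    refine Finset.sum_eq_zero fun i hi => ?_
    have hi' : i < g := Finset.mem_range.1 hi
    by_cases huk : u ≤ k
    · have hge : g ≤ (k - u) / L := by
        rw [Nat.le_div_iff_mul_le hL]; omega
      rw [key i huk (by omega), mul_zero]
    · have : (if L * i ≤ k then p.coeff (k - L * i) else 0) = 0 := by
        split_ifs with h
        · apply hp; omega
        · rfl
      rw [this, mul_zero]

theorem blk_step (S : Matrix κ κ ℤ) (hS : S * Sᵀ = 1) (hc : Commute S Sᵀ) (g : ℕ) (hg : 0 < g)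
    (a b : ℕ → ℤ) (hab : ∀ i < g, a i ^ 2 + b i ^ 2 = 1)
    (hid : ∀ Y : ℤ[X], (∑ i ∈ range g, C (a i) * Y ^ i) * (∑ i ∈ range g, C (a (g - 1 - i)) * Y ^ i)
      + (∑ i ∈ range g, C (b i) * Y ^ i) * (∑ i ∈ range g, C (b (g - 1 - i)) * Y ^ i) =
      C (g : ℤ) * Y ^ (g - 1))
    {u L N : ℕ} {p q pr qr : ℤ[X]} (hL : 0 < L) (h : Blk S u L N p q pr qr) :
    ∃ (N' : ℕ) (p' q' pr' qr' : ℤ[X]), Blk S u (g * L) N' p' q' pr' qr' := by
  obtain ⟨U, hU⟩ : ∃ U : ℤ[X], U = ∑ i ∈ range g, C (a i) * (X ^ L : ℤ[X]) ^ i := ⟨_, rfl⟩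
  obtain ⟨Ur, hUr⟩ : ∃ U : ℤ[X], U = ∑ i ∈ range g, C (a (g - 1 - i)) * (X ^ L : ℤ[X]) ^ i :=
    ⟨_, rfl⟩
  obtain ⟨V, hV⟩ : ∃ U : ℤ[X], U = ∑ i ∈ range g, C (b i) * (X ^ L : ℤ[X]) ^ i := ⟨_, rfl⟩
  obtain ⟨Vr, hVr⟩ : ∃ U : ℤ[X], U = ∑ i ∈ range g, C (b (g - 1 - i)) * (X ^ L : ℤ[X]) ^ i :=
    ⟨_, rfl⟩
  have hcT : Commute (S ^ L) (S ^ L)ᵀ := by
    rw [Matrix.transpose_pow]; exact hc.pow_pow L L
  have hT : S ^ L * (S ^ L)ᵀ = 1 := by rw [Matrix.transpose_pow, pow_mul_t hS hc]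
  have hpow : (S ^ L) ^ (g - 1) = S ^ (L * (g - 1)) := (pow_mul _ _ _).symm
  have rU : aeval S Ur = S ^ (L * (g - 1)) * (aeval S U)ᵀ := by
    rw [hU, hUr, aeval_outer, aeval_outer, ← hpow, rev_outer hT hcT]
  have rV : aeval S V = S ^ (L * (g - 1)) * (aeval S Vr)ᵀ := by
    rw [hV, hVr, aeval_outer, aeval_outer S L g (fun i => b (g - 1 - i)), ← hpow,
      rev_outer hT hcT g (fun i => b (g - 1 - i))]
    refine Finset.sum_congr rfl fun i hi => ?_
    have hi' : i < g := Finset.mem_range.1 hi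
    have e1 : g - 1 - (g - 1 - i) = i := by omega
    simp only [e1]
  have rVr : aeval S Vr = S ^ (L * (g - 1)) * (aeval S V)ᵀ := by
    rw [hV, hVr, aeval_outer, aeval_outer, ← hpow, rev_outer hT hcT]
  have rUu : aeval S U = S ^ (L * (g - 1)) * (aeval S Ur)ᵀ := by
    rw [hU, hUr, aeval_outer, aeval_outer S L g (fun i => a (g - 1 - i)), ← hpow,
      rev_outer hT hcT g (fun i => a (g - 1 - i))]
    refine Finset.sum_congr rfl fun i hi => ?_
    have hi' : i < g := Finset.mem_range.1 hi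
    have e1 : g - 1 - (g - 1 - i) = i := by omega
    simp only [e1]
  have rprod : ∀ W w Wr wr : ℤ[X], aeval S Wr = S ^ (L * (g - 1)) * (aeval S W)ᵀ →
      aeval S wr = S ^ N * (aeval S w)ᵀ →
      aeval S (Wr * wr) = S ^ (N + L * (g - 1)) * (aeval S (W * w))ᵀ := by
    intro W w Wr wr h1 h2
    have c1 : Commute (aeval S W)ᵀ (S ^ N) := by
      have := aeval_comm hc (X ^ N) W
      rw [map_pow, aeval_X, ← aeval_t] at this
      exact this.symm
    have c2 : Commute (aeval S W)ᵀ (aeval S w)ᵀ := by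
      rw [aeval_t, aeval_t]
      show aeval Sᵀ W * aeval Sᵀ w = aeval Sᵀ w * aeval Sᵀ W
      rw [← map_mul, ← map_mul, mul_comm]
    rw [map_mul, h1, h2, map_mul, Matrix.transpose_mul]
    calc S ^ (L * (g - 1)) * (aeval S W)ᵀ * (S ^ N * (aeval S w)ᵀ)
        = S ^ (L * (g - 1)) * ((aeval S W)ᵀ * S ^ N) * (aeval S w)ᵀ := by noncomm_ring
      _ = S ^ (L * (g - 1)) * (S ^ N * (aeval S W)ᵀ) * (aeval S w)ᵀ := by rw [c1.eq]
      _ = S ^ (L * (g - 1)) * S ^ N * ((aeval S W)ᵀ * (aeval S w)ᵀ) := by noncomm_ring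
      _ = S ^ (N + L * (g - 1)) * ((aeval S w)ᵀ * (aeval S W)ᵀ) := by
        rw [c2.eq, ← pow_add, add_comm]
  have hp0 : ∀ k, ¬(u ≤ k ∧ k < u + L) → p.coeff k = 0 ∧ q.coeff k = 0 := by
    intro k hk
    have h1 := h.co k
    rw [if_neg hk] at h1
    have h2 := sq_nonneg (p.coeff k)
    have h3 := sq_nonneg (q.coeff k)
    exact ⟨pow_eq_zero_iff (two_ne_zero) |>.mp (by linarith),
      pow_eq_zero_iff (two_ne_zero) |>.mp (by linarith)⟩
  refine ⟨N + L * (g - 1), U * p - Vr * q, V * p + Ur * q, Ur * pr - V * qr, Vr * pr + U * qr,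
    ?_, ?_, ?_, ?_⟩
  · intro k
    rw [coeff_sub, coeff_add, hU, hVr, hV, hUr, coeff_outer p u L g hL a (fun k hk => (hp0 k hk).1),
      coeff_outer q u L g hL (fun i => b (g - 1 - i)) (fun k hk => (hp0 k hk).2),
      coeff_outer p u L g hL b (fun k hk => (hp0 k hk).1),
      coeff_outer q u L g hL (fun i => a (g - 1 - i)) (fun k hk => (hp0 k hk).2)]
    by_cases hk : u ≤ k ∧ k < u + g * L
    · simp only [if_pos hk]
      have hlt : (k - u) / L < g := by
        rw [Nat.div_lt_iff_lt_mul hL]; omega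
      have hco := h.co (k - L * ((k - u) / L))
      have hdm := Nat.div_add_mod (k - u) L
      have hml := Nat.mod_lt (k - u) hL
      rw [if_pos (by omega)] at hco
      have h1 := hab _ hlt
      have h2 := hab (g - 1 - (k - u) / L)
        (lt_of_le_of_lt (Nat.sub_le _ _) (by omega))
      generalize p.coeff (k - L * ((k - u) / L)) = x at *
      generalize q.coeff (k - L * ((k - u) / L)) = y at *
      generalize a ((k - u) / L) = a1 at *
      generalize b ((k - u) / L) = b1 at *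
      generalize a (g - 1 - (k - u) / L) = a2 at *
      generalize b (g - 1 - (k - u) / L) = b2 at *
      have hxy : x * y = 0 := by
        have hx := sq_nonneg x
        have hy := sq_nonneg y
        rcases (by omega : x ^ 2 = 0 ∨ y ^ 2 = 0) with h3 | h3
        · rw [pow_eq_zero_iff (two_ne_zero) |>.mp h3, zero_mul]
        · rw [pow_eq_zero_iff (two_ne_zero) |>.mp h3, mul_zero]
      linear_combination (x ^ 2) * h1 + (y ^ 2) * h2 + hco + 2 * (b1 * a2 - a1 * b2) * hxy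
    · simp only [if_neg hk]; norm_num
  · have e1 := rprod U p Ur pr rU h.rp
    have e2 := rprod Vr q V qr rV h.rq
    rw [map_sub, map_sub, e1, e2, Matrix.transpose_sub, mul_sub]
  · have e1 := rprod V p Vr pr rVr h.rp
    have e2 := rprod Ur q U qr rUu h.rq
    rw [map_add, map_add, e1, e2, Matrix.transpose_add, mul_add]
  · have hid' := hid (X ^ L)
    rw [← hU, ← hUr, ← hV, ← hVr, ← pow_mul] at hid'
    have e1 : (C ((g * L : ℕ) : ℤ) : ℤ[X]) = C (g : ℤ) * C (L : ℤ) := by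
      rw [← C_mul]; push_cast; rfl
    rw [e1, pow_add]
    linear_combination (p * pr + q * qr) * hid' + C (g : ℤ) * X ^ (L * (g - 1)) * h.id

theorem blk_two (S : Matrix κ κ ℤ) (hS : S * Sᵀ = 1) (hc : Commute S Sᵀ)
    {u L N : ℕ} {p q pr qr : ℤ[X]} (hL : 0 < L) (h : Blk S u L N p q pr qr) :
    ∃ (N' : ℕ) (p' q' pr' qr' : ℤ[X]), Blk S u (2 * L) N' p' q' pr' qr' := by
  refine blk_step S hS hc 2 (by norm_num) (fun i => if i = 0 then 1 else 0)
    (fun i => if i = 1 then 1 else 0) ?_ ?_ hL h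
  · intro i hi
    interval_cases i <;> simp
  · intro Y
    simp [Finset.sum_range_succ]
    ring

/-- first half sum of the Golay pair of length 10 -/
def ga : ℕ → ℤ
  | 0 => 1
  | 1 => 1
  | 2 => -1
  | 3 => 1
  | 5 => 1
  | _ => 0

/-- half difference of the Golay pair of length 10 -/
def gb : ℕ → ℤ
  | 4 => -1
  | 6 => -1
  | 7 => -1
  | 8 => 1
  | 9 => 1
  | _ => 0

theorem blk_ten (S : Matrix κ κ ℤ) (hS : S * Sᵀ = 1) (hc : Commute S Sᵀ)
    {u L N : ℕ} {p q pr qr : ℤ[X]} (hL : 0 < L) (h : Blk S u L N p q pr qr) :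
    ∃ (N' : ℕ) (p' q' pr' qr' : ℤ[X]), Blk S u (10 * L) N' p' q' pr' qr' := by
  refine blk_step S hS hc 10 (by norm_num) ga gb ?_ ?_ hL h
  · intro i hi
    interval_cases i <;> simp [ga, gb]
  · intro Y
    simp [Finset.sum_range_succ, ga, gb]
    ring

theorem blk_exists (S : Matrix κ κ ℤ) (hS : S * Sᵀ = 1) (hc : Commute S Sᵀ) (u a b : ℕ) :
    ∃ (N : ℕ) (p q pr qr : ℤ[X]), Blk S u (2 ^ a * 10 ^ b) N p q pr qr := by
  induction a with
  | zero =>
    induction b with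
    | zero => exact ⟨u, X ^ u, 0, 1, 0, by simpa using blk_one S hS hc u⟩
    | succ b ih =>
      obtain ⟨N, p, q, pr, qr, h⟩ := ih
      obtain ⟨N', p', q', pr', qr', h'⟩ := blk_ten S hS hc (by positivity) h
      have e : 10 * (2 ^ 0 * 10 ^ b) = 2 ^ 0 * 10 ^ (b + 1) := by ring
      rw [e] at h'
      exact ⟨N', p', q', pr', qr', h'⟩
  | succ a ih =>
    obtain ⟨N, p, q, pr, qr, h⟩ := ih
    obtain ⟨N', p', q', pr', qr', h'⟩ := blk_two S hS hc (by positivity) h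
    have e : 2 * (2 ^ a * 10 ^ b) = 2 ^ (a + 1) * 10 ^ b := by ring
    rw [e] at h'
    exact ⟨N', p', q', pr', qr', h'⟩

/-- the matrix identity -/
theorem Blk.car {S : Matrix κ κ ℤ} (hS : S * Sᵀ = 1) (hc : Commute S Sᵀ) {u L N : ℕ}
    {p q pr qr : ℤ[X]} (h : Blk S u L N p q pr qr) :
    aeval S p * (aeval S p)ᵀ + aeval S q * (aeval S q)ᵀ = (L : ℤ) • (1 : Matrix κ κ ℤ) := by
  have h1 := congrArg (aeval S) h.id
  rw [map_add, map_mul, map_mul, h.rp, h.rq, map_mul, map_pow, aeval_X, aeval_C] at h1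
  have c1 : ∀ w : ℤ[X], aeval S w * S ^ N = S ^ N * aeval S w := by
    intro w
    have : aeval S w * aeval S (X ^ N : ℤ[X]) = aeval S (X ^ N : ℤ[X]) * aeval S w := by
      rw [← map_mul, ← map_mul, mul_comm]
    rwa [map_pow, aeval_X] at this
  have h2 : S ^ N * (aeval S p * (aeval S p)ᵀ + aeval S q * (aeval S q)ᵀ) =
      S ^ N * ((L : ℤ) • (1 : Matrix κ κ ℤ)) := by
    rw [mul_add, ← mul_assoc, ← mul_assoc, ← c1, ← c1, mul_assoc, mul_assoc, h1]
    rw [Matrix.mul_smul, mul_one]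
    simp [Algebra.smul_def]
  have h3 := congrArg (fun M => Sᵀ ^ N * M) h2
  simp only [← mul_assoc] at h3
  have h4 : Sᵀ ^ N * S ^ N = 1 := by
    rw [← (hc.pow_pow N N).eq, pow_mul_t hS hc]
  rw [h4, one_mul, one_mul] at h3
  exact h3

end Pool.Agent.Lib.MP_be2ccc_co.AS
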