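import Mathlib
import Pool.Agent.Lib.MP_be2ccc_co.Weigh
import Pool.Agent.Lib.MP_be2ccc_co.AS.Modes
import Pool.Agent.Lib.MP_be2ccc_co.AS.Golay
import Pool.Agent.Lib.MP_be2ccc_co.AS.Main
import Pool.Agent.Lib.MP_be2ccc_co.AS.Chains
import Pool.Agent.Lib.MP_be2ccc_co.AS.Cover
import Pool.Agent.Lib.MP_be2ccc_co.AS.Step

/-!
# All weights from a block system with few blocks
-/

set_option autoImplicit false

namespace Pool.Agent.Lib.MP_be2ccc_co.AS

open Matrix Kronecker Polynomial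

section

variable {κ : Type} [Fintype κ] [DecidableEq κ]

/-- a system of `2 R` polynomials from a list of at most `R` lengths -/
theorem blocks_list (S : Matrix κ κ ℤ) (hS : S * Sᵀ = 1) (hc : Commute S Sᵀ) (R : ℕ) :
    ∀ (l : List ℕ), (∀ g ∈ l, ∃ a b : ℕ, g = 2 ^ a * 10 ^ b) → l.length ≤ R → ∀ u : ℕ,
      ∃ p : Fin (2 * R) → ℤ[X],
        (∀ k, ∑ i, (p i).coeff k ^ 2 = if u ≤ k ∧ k < u + l.sum then 1 else 0) ∧
        ∑ i, aeval S (p i) * (aeval S (p i))ᵀ = (l.sum : ℤ) • (1 : Matrix κ κ ℤ) := by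
  induction R with
  | zero =>
    intro l _ hlen u
    have h0 : l = [] := List.length_eq_zero_iff.1 (by omega)
    subst h0
    refine ⟨fun i => 0, fun k => ?_, ?_⟩
    · rw [List.sum_nil, if_neg (by omega)]; simp
    · simp
  | succ R ih =>
    intro l hl hlen u
    cases l with
    | nil =>
      obtain ⟨p, h3, h4⟩ := ih [] (by simp) (by simp) u
      refine ⟨(Fin.cons 0 (Fin.cons 0 p) : Fin (2 * R + 1 + 1) → ℤ[X]), fun k => ?_, ?_⟩
      · show ∑ i : Fin (2 * R + 1 + 1), _ = _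
        rw [Fin.sum_univ_succ, Fin.sum_univ_succ]
        simp only [Fin.cons_zero, Fin.cons_succ]
        rw [h3 k]
        simp
      · show ∑ i : Fin (2 * R + 1 + 1), _ = _
        rw [Fin.sum_univ_succ, Fin.sum_univ_succ]
        simp only [Fin.cons_zero, Fin.cons_succ]
        rw [h4]
        simp
    | cons g l =>
      obtain ⟨a, b, hg⟩ := hl g (by simp)
      obtain ⟨N, x, y, xr, yr, hB⟩ := blk_exists S hS hc u a b
      rw [← hg] at hB
      have hcar := hB.car hS hc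
      obtain ⟨p, h3, h4⟩ := ih l (fun g hg => hl g (List.mem_cons_of_mem _ hg))
        (by rw [List.length_cons] at hlen; omega) (u + g)
      refine ⟨(Fin.cons x (Fin.cons y p) : Fin (2 * R + 1 + 1) → ℤ[X]), fun k => ?_, ?_⟩
      · show ∑ i : Fin (2 * R + 1 + 1), _ = _
        rw [Fin.sum_univ_succ, Fin.sum_univ_succ]
        simp only [Fin.cons_zero, Fin.cons_succ]
        rw [h3 k, ← add_assoc, hB.co k, List.sum_cons]
        split_ifs <;> omega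
      · show ∑ i : Fin (2 * R + 1 + 1), _ = _
        rw [Fin.sum_univ_succ, Fin.sum_univ_succ]
        simp only [Fin.cons_zero, Fin.cons_succ]
        rw [h4, ← add_assoc, hcar, ← add_smul, List.sum_cons, Nat.cast_add]

end

theorem sq_two {s : ℕ} (b b' x y : Fin s → ℤ) (hb : ∀ i, b i ^ 2 = 1) (hb' : ∀ i, b' i ^ 2 = 1)
    (h : ∑ i, x i ^ 2 + ∑ i, y i ^ 2 ≤ 1) :
    (∑ i, b i * x i - ∑ i, b' i * y i) ^ 2 = ∑ i, x i ^ 2 + ∑ i, y i ^ 2 := by
  have h0 : 0 ≤ ∑ i, x i ^ 2 := Finset.sum_nonneg fun i _ => sq_nonneg _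
  have h1 : 0 ≤ ∑ i, y i ^ 2 := Finset.sum_nonneg fun i _ => sq_nonneg _
  have k1 := sum_sq b x hb Finset.univ
  have k2 := sum_sq b' y hb' Finset.univ
  rcases (by omega : ∑ i, x i ^ 2 = 0 ∧ ∑ i, y i ^ 2 = 0 ∨ ∑ i, x i ^ 2 = 1 ∧ ∑ i, y i ^ 2 = 0 ∨
    ∑ i, x i ^ 2 = 0 ∧ ∑ i, y i ^ 2 = 1) with ⟨h2, h3⟩ | ⟨h2, h3⟩ | ⟨h2, h3⟩
  · rw [k1.1 h2, k2.1 h3, h2, h3]; norm_num
  · rw [k2.1 h3, sub_zero, k1.2 h2, h2, h3]; norm_num
  · rw [k1.1 h2, zero_sub, neg_sq, k2.2 h3, h2, h3]; norm_num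

variable {ι κ : Type} [Fintype ι] [DecidableEq ι] [Fintype κ] [DecidableEq κ]

/-- the sum of some anticommuting members -/
theorem anti_sum {s : ℕ} {z : Fin s → Matrix ι ι ℤ} (w : Fin s → Matrix ι ι ℤ)
    (h1 : ∀ i, (z i)ᵀ = -z i) (h2 : ∀ i j, i ≠ j → z i * z j = -(z j * z i))
    (h3 : ∀ i, z i * z i = -w i) (t : Finset (Fin s)) :
    (∑ i ∈ t, z i)ᵀ = -∑ i ∈ t, z i ∧ (∑ i ∈ t, z i) * (∑ i ∈ t, z i) = -∑ i ∈ t, w i ∧
      ∀ j, j ∉ t → z j * (∑ i ∈ t, z i) = -((∑ i ∈ t, z i) * z j) := by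
  have hPQ : ∀ (t : Finset (Fin s)) (j : Fin s), j ∉ t →
      z j * (∑ i ∈ t, z i) = -((∑ i ∈ t, z i) * z j) := by
    intro t j hj
    rw [Finset.mul_sum, Finset.sum_mul, ← Finset.sum_neg_distrib]
    exact Finset.sum_congr rfl fun i hi => h2 j i (fun e => hj (e ▸ hi))
  refine ⟨?_, ?_, hPQ t⟩
  · rw [Matrix.transpose_sum, ← Finset.sum_neg_distrib]
    exact Finset.sum_congr rfl fun i _ => h1 i
  · induction t using Finset.induction_on with
    | empty => simp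
    | insert a t ha ih =>
      rw [Finset.sum_insert ha, Finset.sum_insert ha, add_mul, mul_add, mul_add, ih, h3,
        hPQ t a ha]
      abel

/-- the two skew matrices -/
theorem zeta_pair {n : ℤ} {s : ℕ} {K G : Matrix ι ι ℤ} {B : Fin (s + 1) → Matrix ι ι ℤ}
    (hM : Modes n (s + 1) K G B) (m : ℕ) [NeZero m] (p : Fin s → ℤ[X]) (pl : ℤ[X]) (cp cl : ℤ)
    (hp : ∀ i k, m ≤ k → (p i).coeff k = 0) (hpl : ∀ k, m ≤ k → pl.coeff k = 0)
    (h1 : ∑ i, aeval (shift m) (p i) * (aeval (shift m) (p i))ᵀ = cp • 1)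
    (h2 : aeval (shift m) pl * (aeval (shift m) pl)ᵀ = cl • 1) :
    ∃ Q P : Matrix (ι × ZMod m) (ι × ZMod m) ℤ, Qᵀ = -Q ∧ Pᵀ = -P ∧ P * Q = -(Q * P) ∧
      Q * Q = -((2 * n * cp) • (1 : Matrix (ι × ZMod m) (ι × ZMod m) ℤ)) ∧
      P * P = -((2 * n * cl) • (1 : Matrix (ι × ZMod m) (ι × ZMod m) ℤ)) ∧
      (K ⊗ₖ (1 : Matrix (ZMod m) (ZMod m) ℤ)) * Q = -(Q * (K ⊗ₖ (1 : Matrix (ZMod m) (ZMod m) ℤ))) ∧
      (∀ a g b g', Q (a, g) (b, g') = ∑ i, B (Fin.castSucc i) a b * (p i).coeff (g - g').val -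
        ∑ i, B (Fin.castSucc i) b a * (p i).coeff (g' - g).val) ∧
      (∀ a g b g', P (a, g) (b, g') = B (Fin.last s) a b * pl.coeff (g - g').val -
        B (Fin.last s) b a * pl.coeff (g' - g).val) := by
  obtain ⟨f, hf⟩ : ∃ f : Fin (s + 1) → ℤ[X], f = Fin.snoc p pl := ⟨_, rfl⟩
  have hf1 : ∀ i, f (Fin.castSucc i) = p i := by
    intro i; rw [hf]; exact Fin.snoc_castSucc (α := fun _ => ℤ[X]) pl p i
  have hf2 : f (Fin.last s) = pl := by
    rw [hf]; exact Fin.snoc_last (α := fun _ => ℤ[X]) pl p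
  have hcf : ∀ i k, m ≤ k → (f i).coeff k = 0 := by
    intro i
    refine Fin.lastCases ?_ (fun i => ?_) i
    · rw [hf2]; exact hpl
    · rw [hf1]; exact hp i
  have hc1 : ∀ i j, aeval (shift m) (f i) * aeval (shift m) (f j) =
      aeval (shift m) (f j) * aeval (shift m) (f i) := fun i j => by
    rw [← map_mul, ← map_mul, mul_comm (f i) (f j)]
  have hc2 : ∀ i j, aeval (shift m) (f i) * (aeval (shift m) (f j))ᵀ =
      (aeval (shift m) (f j))ᵀ * aeval (shift m) (f i) := fun i j => by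
    rw [aeval_t]
    exact aeval_comm (shift_comm _) _ _
  obtain ⟨z, hz⟩ : ∃ z : Fin (s + 1) → Matrix (ι × ZMod m) (ι × ZMod m) ℤ,
      ∀ i, z i = B i ⊗ₖ aeval (shift m) (f i) - (B i ⊗ₖ aeval (shift m) (f i))ᵀ :=
    ⟨_, fun _ => rfl⟩
  obtain ⟨z1, z2, z3, z4⟩ := anti_pairs hM (fun i => aeval (shift m) (f i)) hc1 hc2 z hz
  obtain ⟨w, hw⟩ : ∃ w : Fin (s + 1) → Matrix (ι × ZMod m) (ι × ZMod m) ℤ,
      ∀ i, w i = (2 * n) • ((1 : Matrix ι ι ℤ) ⊗ₖ (aeval (shift m) (f i) *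
        (aeval (shift m) (f i))ᵀ)) := ⟨_, fun _ => rfl⟩
  have z3' : ∀ i, z i * z i = -w i := fun i => by rw [hw]; exact z3 i
  obtain ⟨t, ht⟩ : ∃ t : Finset (Fin (s + 1)), t = Finset.univ.map Fin.castSuccEmb := ⟨_, rfl⟩
  obtain ⟨q1, q2, q3⟩ := anti_sum w z1 z2 z3' t
  have hlast : Fin.last s ∉ t := by
    rw [ht, Finset.mem_map]
    rintro ⟨i, _, hi⟩
    exact (Fin.castSucc_lt_last i).ne hi
  have hsumt : ∀ F : Fin (s + 1) → Matrix (ι × ZMod m) (ι × ZMod m) ℤ,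
      ∑ i ∈ t, F i = ∑ i : Fin s, F (Fin.castSucc i) := by
    intro F
    rw [ht, Finset.sum_map]
    rfl
  have hent : ∀ i a g b g', z i (a, g) (b, g') = B i a b * (f i).coeff (g - g').val -
      B i b a * (f i).coeff (g' - g).val := by
    intro i a g b g'
    rw [hz]
    simp only [Matrix.sub_apply, Matrix.transpose_apply, Matrix.kroneckerMap_apply]
    rw [aeval_shift m _ (hcf i), aeval_shift m _ (hcf i)]
  refine ⟨∑ i ∈ t, z i, z (Fin.last s), q1, z1 _, q3 _ hlast, ?_, ?_, ?_, ?_, ?_⟩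
  · rw [q2, hsumt]
    simp only [hw, hf1]
    rw [← Finset.smul_sum]
    have h4 : ∑ i, (1 : Matrix ι ι ℤ) ⊗ₖ (aeval (shift m) (p i) * (aeval (shift m) (p i))ᵀ) =
        (1 : Matrix ι ι ℤ) ⊗ₖ (∑ i, aeval (shift m) (p i) * (aeval (shift m) (p i))ᵀ) := by
      ext ⟨a, x⟩ ⟨b, y⟩
      simp only [Matrix.sum_apply, Matrix.kroneckerMap_apply, Finset.mul_sum]
    rw [h4, h1, Matrix.kronecker_smul, Matrix.one_kronecker_one, smul_smul]
  · rw [z3', hw, hf2, h2, Matrix.kronecker_smul, Matrix.one_kronecker_one, smul_smul]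
  · rw [Finset.mul_sum, Finset.sum_mul, ← Finset.sum_neg_distrib]
    exact Finset.sum_congr rfl fun i _ => z4 i
  · intro a g b g'
    rw [hsumt, Matrix.sum_apply, ← Finset.sum_sub_distrib]
    refine Finset.sum_congr rfl fun i _ => ?_
    rw [hent, hf1]
  · intro a g b g'
    rw [hent, hf2]

end Pool.Agent.Lib.MP_be2ccc_co.AS
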