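import Mathlib
import Pool.Agent.Lib.MP_be2ccc_co.AS.Few

/-!
# All weights, with a new block system for every weight
-/

set_option autoImplicit false

namespace Pool.Agent.Lib.MP_be2ccc_co.AS

open Matrix Kronecker Polynomial

/-- values of differences in `ZMod m` -/
theorem val_facts (h : ℕ) (g g' : ZMod (2 * h + 1)) (hg : g ≠ g') :
    (g - g').val ≠ 0 ∧ (g - g').val + (g' - g).val = 2 * h + 1 := by
  have hv1 : (g - g').val < 2 * h + 1 := ZMod.val_lt _
  have hne : g - g' ≠ 0 := sub_ne_zero.2 hg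
  have hv0 : (g - g').val ≠ 0 := fun e => hne ((ZMod.val_eq_zero _).1 e)
  have hv2 : (g' - g).val = 2 * h + 1 - (g - g').val := by
    have h1 := ZMod.neg_val (g - g')
    rw [neg_sub, if_neg hne] at h1
    exact h1
  exact ⟨hv0, by omega⟩

theorem ind_sq (d u v : ℕ) : ((if u ≤ d ∧ d < v then 1 else 0 : ℤ)) ≤ 1 := by
  split_ifs <;> norm_num

/-- all weights in the order `2 ^ r n₁ (2 h + 1)`, `n₁ = 16 ^ (2 R + 1)`, `2 n₁ ≤ 2 ^ r`, if every
`x ≤ h` is the sum of at most `R` numbers `2 ^ a 10 ^ b` -/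
theorem few_weights (h R r k : ℕ)
    (hblk : ∀ x ≤ h, ∃ l : List ℕ, (∀ g ∈ l, ∃ a b : ℕ, g = 2 ^ a * 10 ^ b) ∧ l.sum = x ∧
      l.length ≤ R)
    (hr : 2 * 16 ^ (2 * R + 1) ≤ 2 ^ r)
    (hk : k ≤ 2 ^ r * (16 ^ (2 * R + 1) * (2 * h + 1))) :
    HasW (2 ^ r * (16 ^ (2 * R + 1) * (2 * h + 1))) k := by
  obtain ⟨ι, _, _, K, G, B, hcard, hM⟩ := modes_exist (2 * R + 1)
  have : NeZero (2 * h + 1) := ⟨by omega⟩
  obtain ⟨n1, hn1⟩ : ∃ n1 : ℕ, n1 = 16 ^ (2 * R + 1) := ⟨_, rfl⟩
  have hn1z : (16 : ℤ) ^ (2 * R + 1) = (n1 : ℤ) := by rw [hn1]; push_cast; rfl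
  rw [hn1z] at hM
  rw [← hn1] at hr hk hcard ⊢
  have h16 : 16 ≤ n1 := by
    rw [hn1, pow_succ]
    have : 1 ≤ 16 ^ (2 * R) := Nat.one_le_pow _ _ (by norm_num)
    omega
  have hcard2 : Fintype.card (ι × ZMod (2 * h + 1)) = n1 * (2 * h + 1) := by
    rw [Fintype.card_prod, hcard, ZMod.card]
  have hB : ∀ i a b, B i a b ^ 2 = 1 := fun i a b => hM.s3 i a b
  -- the pair for given x, with an optional extra position
  have hpair : ∀ (x : ℕ) (e : ℕ), x + e ≤ h → (e = 0 ∨ e = 1) →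
      ∃ Q P : Matrix (ι × ZMod (2 * h + 1)) (ι × ZMod (2 * h + 1)) ℤ,
        Qᵀ = -Q ∧ Pᵀ = -P ∧ P * Q = -(Q * P) ∧
        Q * Q = -(((2 * n1 * x : ℕ) : ℤ) • (1 : Matrix _ _ ℤ)) ∧
        P * P = -(((2 * n1 * e : ℕ) : ℤ) • (1 : Matrix _ _ ℤ)) ∧
        (K ⊗ₖ (1 : Matrix (ZMod (2 * h + 1)) (ZMod (2 * h + 1)) ℤ)) * Q =
          -(Q * (K ⊗ₖ (1 : Matrix (ZMod (2 * h + 1)) (ZMod (2 * h + 1)) ℤ))) ∧
        ∀ a g b g', Q (a, g) (b, g') ^ 2 + P (a, g) (b, g') ^ 2 ≤
          if g = g' then 0 else 1 := by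
    intro x e hxe he
    obtain ⟨l, hl1, hl2, hl3⟩ := hblk x (by omega)
    obtain ⟨p, hp1, hp2⟩ := blocks_list (shift (2 * h + 1)) (shift_mul_t _) (shift_comm _) R l
      hl1 hl3 1
    rw [hl2] at hp1 hp2
    obtain ⟨pl, hpl⟩ : ∃ pl : ℤ[X], pl = C (e : ℤ) * X ^ (x + 1) := ⟨_, rfl⟩
    have hcl : ∀ k, pl.coeff k ^ 2 = if k = x + 1 then (e : ℤ) else 0 := by
      intro k
      rw [hpl, coeff_C_mul, coeff_X_pow]
      rcases he with he | he <;> subst he <;> split_ifs <;> norm_num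
    have hcoef : ∀ i k, 2 * h + 1 ≤ k → (p i).coeff k = 0 := by
      intro i k hk
      have h1 := hp1 k
      rw [if_neg (by omega)] at h1
      have h2 := (Finset.sum_eq_zero_iff_of_nonneg (fun i _ => sq_nonneg _)).1 h1 i
        (Finset.mem_univ _)
      exact pow_eq_zero_iff (two_ne_zero) |>.mp h2
    have hcoefl : ∀ k, 2 * h + 1 ≤ k → pl.coeff k = 0 := by
      intro k hk
      have h1 := hcl k
      rcases he with he | he
      · rw [he] at h1
        refine pow_eq_zero_iff (two_ne_zero) |>.mp (h1.trans ?_)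
        split_ifs <;> rfl
      · rw [if_neg (by omega)] at h1
        exact pow_eq_zero_iff (two_ne_zero) |>.mp h1
    have hl : aeval (shift (2 * h + 1)) pl * (aeval (shift (2 * h + 1)) pl)ᵀ =
        (e : ℤ) • (1 : Matrix (ZMod (2 * h + 1)) (ZMod (2 * h + 1)) ℤ) := by
      rcases he with he | he
      · subst he
        rw [hpl]; simp
      · subst he
        have h1 : pl = X ^ (x + 1) := by rw [hpl]; simp
        rw [aeval_t, h1, map_pow, map_pow, aeval_X, aeval_X, pow_mul_t (shift_mul_t _)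
          (shift_comm _)]
        simp
    obtain ⟨Q, P, q1, q2, q3, q4, q5, q6, q7, q8⟩ :=
      zeta_pair hM (2 * h + 1) p pl (x : ℤ) (e : ℤ) hcoef hcoefl hp2 hl
    refine ⟨Q, P, q1, q2, q3, ?_, ?_, q6, ?_⟩
    · rw [q4]; push_cast; rfl
    · rw [q5]; push_cast; rfl
    · intro a g b g'
      rw [q7, q8]
      have hs1 := hp1 (g - g').val
      have hs2 := hp1 (g' - g).val
      have hP : (B (Fin.last (2 * R)) a b * pl.coeff (g - g').val -
          B (Fin.last (2 * R)) b a * pl.coeff (g' - g).val) ^ 2 ≤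
          pl.coeff (g - g').val ^ 2 + pl.coeff (g' - g).val ^ 2 -
          2 * (B (Fin.last (2 * R)) a b * B (Fin.last (2 * R)) b a) *
            (pl.coeff (g - g').val * pl.coeff (g' - g).val) := by
        have h1 := hB (Fin.last (2 * R)) a b
        have h2 := hB (Fin.last (2 * R)) b a
        generalize B (Fin.last (2 * R)) a b = b1 at *
        generalize B (Fin.last (2 * R)) b a = b2 at *
        generalize pl.coeff (g - g').val = x1 at *
        generalize pl.coeff (g' - g).val = x2 at *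
        have : (b1 * x1 - b2 * x2) ^ 2 = x1 ^ 2 + x2 ^ 2 - 2 * (b1 * b2) * (x1 * x2) := by
          linear_combination x1 ^ 2 * h1 + x2 ^ 2 * h2
        exact this.le
      by_cases hg : g = g'
      · subst hg
        rw [if_pos rfl]
        rw [sub_self, ZMod.val_zero] at hs1 hP ⊢
        rw [if_neg (by omega)] at hs1
        rw [sq_two (fun i => B (Fin.castSucc i) a b) (fun i => B (Fin.castSucc i) b a)
          (fun i => (p i).coeff 0) (fun i => (p i).coeff 0) (fun i => hB _ _ _)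
          (fun i => hB _ _ _) (by linarith)]
        have h0 : pl.coeff 0 = 0 := by
          have h1 := hcl 0
          rw [if_neg (by omega)] at h1
          exact pow_eq_zero_iff (two_ne_zero) |>.mp h1
        rw [h0] at hP ⊢
        linarith
      · rw [if_neg hg]
        obtain ⟨v0, v1⟩ := val_facts h g g' hg
        have hc1 := hcl (g - g').val
        have hc2 := hcl (g' - g).val
        have hle : ∑ i, (p i).coeff (g - g').val ^ 2 + ∑ i, (p i).coeff (g' - g).val ^ 2 ≤ 1 := by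
          rw [hs1, hs2]
          split_ifs <;> omega
        rw [sq_two (fun i => B (Fin.castSucc i) a b) (fun i => B (Fin.castSucc i) b a)
          (fun i => (p i).coeff (g - g').val) (fun i => (p i).coeff (g' - g).val)
          (fun i => hB _ _ _) (fun i => hB _ _ _) hle]
        rw [hs1, hs2]
        have hxx : pl.coeff (g - g').val * pl.coeff (g' - g).val = 0 := by
          by_cases h5 : (g - g').val = x + 1
          · have h6 : (g' - g).val ≠ x + 1 ∨ e = 0 := by omega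
            rcases h6 with h6 | h6
            · rw [if_neg h6] at hc2
              rw [pow_eq_zero_iff (two_ne_zero) |>.mp hc2, mul_zero]
            · rw [if_pos h5, h6] at hc1
              rw [pow_eq_zero_iff (two_ne_zero) |>.mp hc1, zero_mul]
          · rw [if_neg h5] at hc1
            rw [pow_eq_zero_iff (two_ne_zero) |>.mp hc1, zero_mul]
        rw [hxx, mul_zero, sub_zero, hc1, hc2] at hP
        refine le_trans (add_le_add le_rfl hP) ?_
        rcases he with he | he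
        · subst he
          simp only [Nat.cast_zero, ite_self, add_zero]
          split_ifs <;> omega
        · subst he
          simp only [Nat.cast_one]
          split_ifs <;> omega
  have hone : ∀ a g b g', (1 : Matrix (ι × ZMod (2 * h + 1)) (ι × ZMod (2 * h + 1)) ℤ)
      (a, g) (b, g') = (1 : Matrix ι ι ℤ) a b * (1 : Matrix _ _ ℤ) g g' := by
    intro a g b g'
    rw [← Matrix.one_kronecker_one, Matrix.kroneckerMap_apply]
  by_cases hlt : k / (2 ^ r * (2 * n1)) < h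
  · obtain ⟨x, hx⟩ : ∃ x, x = k / (2 ^ r * (2 * n1)) := ⟨_, rfl⟩
    rw [← hx] at hlt
    obtain ⟨Q, P, q1, q2, q3, q4, q5, q6, q7⟩ := hpair x 1 (by omega) (Or.inr rfl)
    have hpos : 0 < 2 ^ r * (2 * n1) := by positivity
    obtain ⟨ρ, hρ⟩ : ∃ ρ, ρ = k % (2 ^ r * (2 * n1)) := ⟨_, rfl⟩
    have hρ1 : ρ < 2 ^ r * (2 * n1) := by rw [hρ]; exact Nat.mod_lt _ hpos
    have hkx : 2 ^ r * (2 * n1) * x + ρ = k := by rw [hx, hρ]; exact Nat.div_add_mod _ _
    have hb : ρ % (2 * n1) ≤ 2 ^ r := (Nat.mod_lt _ (by omega)).le.trans hr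
    have hc : ρ / (2 * n1) ≤ 2 ^ r :=
      ((Nat.div_lt_iff_lt_mul (by omega)).2 hρ1).le
    have h3 := three_term r (ρ % (2 * n1)) (ρ / (2 * n1)) hb hc P Q (2 * n1 * 1) (2 * n1 * x) q2 q1
      q3 q5 q4 (by
        rintro ⟨a, g⟩ ⟨b, g'⟩
        have h4 := q7 a g b g'
        rw [hone]
        by_cases hg : g = g'
        · rw [if_pos hg] at h4
          have h5 : (1 : Matrix ι ι ℤ) a b ≤ 1 := by
            rw [Matrix.one_apply]; split_ifs <;> norm_num
          subst hg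
          rw [Matrix.one_apply_eq, mul_one]
          linarith
        · rw [if_neg hg] at h4
          rw [Matrix.one_apply_ne hg, mul_zero]
          linarith)
    have h4 : ρ % (2 * n1) + ρ / (2 * n1) * (2 * n1 * 1) + 2 ^ r * (2 * n1 * x) = k := by
      have h5 := Nat.mod_add_div ρ (2 * n1)
      calc ρ % (2 * n1) + ρ / (2 * n1) * (2 * n1 * 1) + 2 ^ r * (2 * n1 * x) =
          (ρ % (2 * n1) + 2 * n1 * (ρ / (2 * n1))) + 2 ^ r * (2 * n1) * x := by ring
        _ = k := by rw [h5, add_comm]; exact hkx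
    rw [h4, hcard2] at h3
    exact h3
  · push Not at hlt
    obtain ⟨Q, P, q1, q2, q3, q4, q5, q6, q7⟩ := hpair h 0 (by omega) (Or.inl rfl)
    have hkge : 2 ^ r * (2 * n1) * h ≤ k := by
      have := Nat.mul_le_of_le_div _ _ _ hlt
      rw [mul_comm]; exact this
    obtain ⟨ρ, hρ⟩ : ∃ ρ, k = 2 ^ r * (2 * n1) * h + ρ := ⟨k - 2 ^ r * (2 * n1) * h, by omega⟩
    have hρ1 : ρ ≤ 2 ^ r * n1 := by
      have : 2 ^ r * (n1 * (2 * h + 1)) = 2 ^ r * (2 * n1) * h + 2 ^ r * n1 := by ring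
      omega
    obtain ⟨c, b, hc, hb, hcb⟩ : ∃ c b : ℕ, c ≤ 2 ^ r ∧ b ≤ 2 ^ r ∧ b + c * (n1 - 1) = ρ := by
      by_cases hbig : 2 ^ r * (n1 - 1) ≤ ρ
      · refine ⟨2 ^ r, ρ - 2 ^ r * (n1 - 1), le_rfl, ?_, by omega⟩
        have : 2 ^ r * n1 = 2 ^ r * (n1 - 1) + 2 ^ r := by
          rw [← Nat.mul_succ]; congr 1; omega
        omega
      · push Not at hbig
        refine ⟨ρ / (n1 - 1), ρ % (n1 - 1), ?_, ?_, ?_⟩
        · exact ((Nat.div_lt_iff_lt_mul (by omega)).2 hbig).le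
        · have := Nat.mod_lt ρ (show 0 < n1 - 1 by omega)
          omega
        · exact Nat.mod_add_div' ρ (n1 - 1)
    have hKt : (K ⊗ₖ (1 : Matrix (ZMod (2 * h + 1)) (ZMod (2 * h + 1)) ℤ))ᵀ =
        -(K ⊗ₖ (1 : Matrix (ZMod (2 * h + 1)) (ZMod (2 * h + 1)) ℤ)) := by
      rw [kr_t, hM.Kt, Matrix.transpose_one, neg_kr]
    have hKK : (K ⊗ₖ (1 : Matrix (ZMod (2 * h + 1)) (ZMod (2 * h + 1)) ℤ)) *
        (K ⊗ₖ (1 : Matrix (ZMod (2 * h + 1)) (ZMod (2 * h + 1)) ℤ)) =
        -(((n1 - 1 : ℕ) : ℤ) • (1 : Matrix _ _ ℤ)) := by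
      rw [← Matrix.mul_kronecker_mul, hM.KK, neg_kr, Matrix.smul_kronecker, mul_one,
        Matrix.one_kronecker_one, Nat.cast_sub (by omega)]
      push_cast
      rfl
    have h3 := three_term r b c hb hc _ Q (n1 - 1) (2 * n1 * h) hKt q1 q6 hKK q4 (by
        rintro ⟨a, g⟩ ⟨b, g'⟩
        have h4 := q7 a g b g'
        have h6 := sq_nonneg (P (a, g) (b, g'))
        have h7 := hM.s1 a b
        rw [hone, Matrix.kroneckerMap_apply]
        by_cases hg : g = g'
        · rw [if_pos hg] at h4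
          subst hg
          rw [Matrix.one_apply_eq, mul_one, mul_one]
          linarith
        · rw [if_neg hg] at h4
          rw [Matrix.one_apply_ne hg, mul_zero, mul_zero]
          linarith)
    have h4 : b + c * (n1 - 1) + 2 ^ r * (2 * n1 * h) = k := by
      rw [hcb, hρ]; ring
    rw [h4, hcard2] at h3
    exact h3

end Pool.Agent.Lib.MP_be2ccc_co.AS
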