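import Mathlib

/-!
# Every natural number is a sum of few numbers `2 ^ a * 10 ^ b`
-/

set_option autoImplicit false

namespace Pool.Agent.Lib.MP_be2ccc_co.AS

/-- the numbers `2 ^ a * 10 ^ b` -/
def IsG (n : ℕ) : Prop := ∃ a b : ℕ, n = 2 ^ a * 10 ^ b

theorem IsG.one : IsG 1 := ⟨0, 0, by simp⟩

theorem IsG.mul {m n : ℕ} (hm : IsG m) (hn : IsG n) : IsG (m * n) := by
  obtain ⟨a, b, rfl⟩ := hm
  obtain ⟨c, d, rfl⟩ := hn
  exact ⟨a + c, b + d, by rw [pow_add, pow_add]; ring⟩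

theorem IsG.pow {m : ℕ} (hm : IsG m) (k : ℕ) : IsG (m ^ k) := by
  induction k with
  | zero => simpa using IsG.one
  | succ k ih => rw [pow_succ]; exact ih.mul hm

theorem IsG.pos {m : ℕ} (hm : IsG m) : 0 < m := by
  obtain ⟨a, b, rfl⟩ := hm; positivity

/-- two numbers of the set which are close to each other -/
theorem close_pair (j : ℕ) : ∃ u v : ℕ, IsG u ∧ IsG v ∧ v < u ∧ (u - v) * 2 ^ j < v := by
  obtain ⟨B, hB⟩ : ∃ B, B = 2 ^ (j + 1) := ⟨_, rfl⟩
  obtain ⟨M, hM⟩ : ∃ M, M = 4 * B := ⟨_, rfl⟩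
  have hBj : j + 1 < B := by rw [hB]; exact Nat.lt_two_pow_self
  have hlog : ∀ b, b ≤ B → Nat.log 2 (10 ^ b) ≤ M := by
    intro b hb
    have h1 : 10 ^ b ≤ 2 ^ M := by
      calc 10 ^ b ≤ 16 ^ b := Nat.pow_le_pow_left (by norm_num) b
        _ = 2 ^ (4 * b) := by rw [show (16 : ℕ) = 2 ^ 4 by norm_num, ← pow_mul]
        _ ≤ 2 ^ M := Nat.pow_le_pow_right (by norm_num) (by omega)
    calc Nat.log 2 (10 ^ b) ≤ Nat.log 2 (2 ^ M) := Nat.log_mono_right h1
      _ = M := Nat.log_pow (by norm_num) M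
  obtain ⟨y, hy⟩ : ∃ y : ℕ → ℕ, ∀ b, y b = 2 ^ (M - Nat.log 2 (10 ^ b)) * 10 ^ b := ⟨_, fun _ => rfl⟩
  have hy1 : ∀ b, b ≤ B → 2 ^ M ≤ y b ∧ y b < 2 ^ (M + 1) := by
    intro b hb
    have h1 := Nat.pow_log_le_self 2 (x := 10 ^ b) (by positivity)
    have h2 := Nat.lt_pow_succ_log_self (b := 2) (by norm_num) (10 ^ b)
    have h3 := hlog b hb
    constructor
    · calc 2 ^ M = 2 ^ (M - Nat.log 2 (10 ^ b)) * 2 ^ Nat.log 2 (10 ^ b) := by
            rw [← pow_add]; congr 1; omega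
        _ ≤ y b := by rw [hy]; exact Nat.mul_le_mul_left _ h1
    · calc y b < 2 ^ (M - Nat.log 2 (10 ^ b)) * 2 ^ (Nat.log 2 (10 ^ b)).succ := by
            rw [hy]; exact Nat.mul_lt_mul_of_pos_left h2 (by positivity)
        _ = 2 ^ (M + 1) := by rw [← pow_add]; congr 1; omega
  have hinj : ∀ b c, y b = y c → b = c := by
    intro b c hbc
    rw [hy, hy] at hbc
    have h5 : ∀ a b : ℕ, (2 ^ a * 10 ^ b).factorization 5 = b := by
      intro a b
      have e : (10 : ℕ) ^ b = 2 ^ b * 5 ^ b := by rw [← mul_pow]; norm_num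
      rw [e, ← mul_assoc, ← pow_add,
        Nat.factorization_mul (by positivity) (by positivity), Finsupp.add_apply,
        Nat.factorization_pow, Nat.factorization_pow, Finsupp.smul_apply, Finsupp.smul_apply,
        Nat.Prime.factorization_self (by norm_num),
        Nat.factorization_eq_zero_of_not_dvd (by norm_num)]
      simp
    rw [← h5 (M - Nat.log 2 (10 ^ b)) b, hbc, h5]
  obtain ⟨f, hf⟩ : ∃ f : ℕ → ℕ, ∀ b, f b = (y b - 2 ^ M) / 2 ^ (M - j - 1) := ⟨_, fun _ => rfl⟩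
  have hfm : ∀ b ∈ Finset.range (B + 1), f b ∈ Finset.range B := by
    intro b hb
    have hb' : b ≤ B := by have := Finset.mem_range.1 hb; omega
    obtain ⟨h1, h2⟩ := hy1 b hb'
    rw [Finset.mem_range, hf, Nat.div_lt_iff_lt_mul (by positivity)]
    have h3 : B * 2 ^ (M - j - 1) = 2 ^ M := by
      rw [hB, ← pow_add]; congr 1; omega
    rw [h3]
    rw [pow_succ] at h2
    omega
  obtain ⟨b, hb, c, hc, hbc, hfe⟩ := Finset.exists_ne_map_eq_of_card_lt_of_maps_to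
    (by simp : (Finset.range B).card < (Finset.range (B + 1)).card) hfm
  have hG : ∀ b, IsG (y b) := fun b => ⟨_, b, hy b⟩
  -- main estimate
  have main : ∀ b c, b ≤ B → c ≤ B → f b = f c → y b < y c → (y c - y b) * 2 ^ j < y b := by
    intro b c hb hc hfe hlt
    obtain ⟨h1, h2⟩ := hy1 b hb
    obtain ⟨h3, h4⟩ := hy1 c hc
    rw [hf, hf] at hfe
    have hp : 0 < 2 ^ (M - j - 1) := by positivity
    have e1 := Nat.div_add_mod (y b - 2 ^ M) (2 ^ (M - j - 1))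
    have e2 := Nat.div_add_mod (y c - 2 ^ M) (2 ^ (M - j - 1))
    have e3 := Nat.mod_lt (y c - 2 ^ M) hp
    rw [hfe] at e1
    have hd : y c - y b < 2 ^ (M - j - 1) := by omega
    calc (y c - y b) * 2 ^ j ≤ 2 ^ (M - j - 1) * 2 ^ j := Nat.mul_le_mul_right _ hd.le
      _ = 2 ^ (M - 1) := by rw [← pow_add]; congr 1; omega
      _ < 2 ^ M := Nat.pow_lt_pow_right (by norm_num) (by omega)
      _ ≤ y b := h1
  have hb' : b ≤ B := by have := Finset.mem_range.1 hb; omega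
  have hc' : c ≤ B := by have := Finset.mem_range.1 hc; omega
  rcases lt_trichotomy (y b) (y c) with h | h | h
  · exact ⟨y c, y b, hG c, hG b, h, main b c hb' hc' hfe h⟩
  · exact absurd (hinj b c h) hbc
  · exact ⟨y b, y c, hG b, hG c, h, main c b hc' hb' hfe.symm h⟩

theorem bern (a n : ℕ) : a ^ (n + 1) + (n + 1) * a ^ n ≤ (a + 1) ^ (n + 1) := by
  induction n with
  | zero => simp
  | succ n ih =>
    have h1 : (a ^ (n + 1) + (n + 1) * a ^ n) * (a + 1) ≤ (a + 1) ^ (n + 1) * (a + 1) :=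
      Nat.mul_le_mul_right _ ih
    rw [pow_succ (a + 1) (n + 1)]
    refine le_trans ?_ h1
    have e1 : (a ^ (n + 1) + (n + 1) * a ^ n) * (a + 1) =
        a ^ (n + 1 + 1) + (n + 1 + 1) * a ^ (n + 1) + (n + 1) * a ^ n := by
      rw [pow_succ a (n + 1), pow_succ a n]; ring
    rw [e1]
    exact Nat.le_add_right _ _

/-- beyond some point there is always a number of the set just below -/
theorem net (j : ℕ) : ∃ X0 : ℕ, 0 < X0 ∧ ∀ x, X0 ≤ x → ∃ g, IsG g ∧ g ≤ x ∧ (x - g) * 2 ^ j ≤ x := by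
  obtain ⟨u, v, hu, hv, hlt, hclose⟩ := close_pair j
  have hv0 : 0 < v := hv.pos
  have hdouble : 2 * v ^ v ≤ u ^ v := by
    obtain ⟨k, rfl⟩ : ∃ k, v = k + 1 := ⟨v - 1, by omega⟩
    have h1 := bern (k + 1) k
    have h2 : (k + 1 + 1) ^ (k + 1) ≤ u ^ (k + 1) := Nat.pow_le_pow_left (by omega) _
    refine le_trans ?_ h2
    refine le_trans ?_ h1
    rw [two_mul, pow_succ (k + 1) k]
    exact le_of_eq (by ring)
  refine ⟨v ^ v, by positivity, fun x hx => ?_⟩
  have hvv : 0 < v ^ v := by positivity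
  obtain ⟨a, ha⟩ : ∃ a, a = Nat.log 2 (x / v ^ v) := ⟨_, rfl⟩
  have hq : x / v ^ v ≠ 0 := by
    have : 1 ≤ x / v ^ v := (Nat.one_le_div_iff hvv).2 hx
    omega
  have ha1 : 2 ^ a * v ^ v ≤ x := by
    have := Nat.pow_log_le_self 2 hq
    rw [← ha] at this
    exact (Nat.le_div_iff_mul_le hvv).1 this
  have ha2 : x < 2 ^ (a + 1) * v ^ v := by
    have := Nat.lt_pow_succ_log_self (b := 2) (by norm_num) (x / v ^ v)
    rw [← ha] at this
    exact (Nat.div_lt_iff_lt_mul hvv).1 this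
  obtain ⟨s, hs⟩ : ∃ s : ℕ → ℕ, ∀ i, s i = 2 ^ a * (v ^ (v - i) * u ^ i) := ⟨_, fun _ => rfl⟩
  have hs0 : s 0 ≤ x := by rw [hs]; simpa using ha1
  have hsv : x < s v := by
    rw [hs, Nat.sub_self, pow_zero, one_mul]
    calc x < 2 ^ (a + 1) * v ^ v := ha2
      _ = 2 ^ a * (2 * v ^ v) := by rw [pow_succ]; ring
      _ ≤ _ := Nat.mul_le_mul_left _ hdouble
  have hivt : ∀ k, k ≤ v → x < s k → ∃ i, i < k ∧ s i ≤ x ∧ x < s (i + 1) := by
    intro k
    induction k with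
    | zero => intro _ h; omega
    | succ k ih =>
      intro hk h
      rcases Nat.lt_or_ge x (s k) with h1 | h1
      · obtain ⟨i, hi, h2, h3⟩ := ih (by omega) h1
        exact ⟨i, by omega, h2, h3⟩
      · exact ⟨k, by omega, h1, h⟩
  obtain ⟨i, hi, h1, h2⟩ := hivt v le_rfl hsv
  have hrec : s (i + 1) * v = s i * u := by
    rw [hs, hs, show v - i = v - (i + 1) + 1 by omega, pow_succ v, pow_succ u]; ring
  refine ⟨s i, ?_, h1, ?_⟩
  · rw [hs]
    exact IsG.mul (m := 2 ^ a) ⟨a, 0, by simp⟩ ((hv.pow _).mul (hu.pow _))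
  · have hsi : 0 < s i := by rw [hs]; have := hu.pos; positivity
    have h3 : (x - s i) * v ≤ s i * (u - v) := by
      rw [Nat.mul_sub, Nat.sub_mul, ← hrec]
      exact Nat.sub_le_sub_right (Nat.mul_le_mul_right _ h2.le) _
    have h4 : (x - s i) * 2 ^ j * v ≤ s i * v := by
      calc (x - s i) * 2 ^ j * v = (x - s i) * v * 2 ^ j := by ring
        _ ≤ s i * (u - v) * 2 ^ j := Nat.mul_le_mul_right _ h3
        _ = s i * ((u - v) * 2 ^ j) := by ring
        _ ≤ s i * v := Nat.mul_le_mul_left _ hclose.le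
    exact (Nat.le_of_mul_le_mul_right h4 hv0).trans h1

theorem few_terms (j : ℕ) : ∃ X0 : ℕ, 0 < X0 ∧ ∀ i x : ℕ, x < X0 * (2 ^ j) ^ i →
    ∃ l : List ℕ, (∀ g ∈ l, IsG g) ∧ l.sum = x ∧ l.length ≤ i + X0 := by
  obtain ⟨X0, hX0, hnet⟩ := net j
  refine ⟨X0, hX0, ?_⟩
  have small : ∀ x, x < X0 → ∃ l : List ℕ, (∀ g ∈ l, IsG g) ∧ l.sum = x ∧ l.length ≤ X0 := by
    intro x hx
    refine ⟨List.replicate x 1, fun g hg => ?_, by simp, by simpa using hx.le⟩
    rw [List.eq_of_mem_replicate hg]; exact IsG.one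
  intro i
  induction i with
  | zero =>
    intro x hx
    obtain ⟨l, h1, h2, h3⟩ := small x (by simpa using hx)
    exact ⟨l, h1, h2, by omega⟩
  | succ i ih =>
    intro x hx
    rcases Nat.lt_or_ge x X0 with h | h
    · obtain ⟨l, h1, h2, h3⟩ := small x h
      exact ⟨l, h1, h2, by omega⟩
    · obtain ⟨g, hg, hgx, hclose⟩ := hnet x h
      have h1 : x - g < X0 * (2 ^ j) ^ i := by
        have h2 : (x - g) * 2 ^ j < X0 * (2 ^ j) ^ i * 2 ^ j := by
          calc (x - g) * 2 ^ j ≤ x := hclose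
            _ < X0 * (2 ^ j) ^ (i + 1) := hx
            _ = X0 * (2 ^ j) ^ i * 2 ^ j := by rw [pow_succ]; ring
        exact Nat.lt_of_mul_lt_mul_right h2
      obtain ⟨l, h2, h3, h4⟩ := ih (x - g) h1
      refine ⟨g :: l, fun y hy => ?_, ?_, ?_⟩
      · rcases List.mem_cons.1 hy with rfl | hy
        · exact hg
        · exact h2 y hy
      · rw [List.sum_cons, h3]; omega
      · rw [List.length_cons]; omega

end Pool.Agent.Lib.MP_be2ccc_co.AS
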