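import Mathlib
import Pool.Agent.Lib.MP_be2ccc_co.AS.Eps
import Pool.Agent.Lib.MP_be2ccc_co.AS.Net

/-!
# All weights in the orders `2 ^ t * m`, `2 ^ t ≥ C m ^ ε`
-/

set_option autoImplicit false

namespace Pool.Agent.Lib.MP_be2ccc_co.AS

theorem eps_all (ε : ℝ) (hε : 0 < ε) : ∃ C : ℝ, 0 < C ∧ ∀ m t k : ℕ, m % 2 = 1 →
    C * (m : ℝ) ^ ε ≤ 2 ^ t → k ≤ 2 ^ t * m → HasW (2 ^ t * m) k := by
  obtain ⟨j, hj⟩ := exists_nat_ge (16 / ε)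
  have hj16 : 16 ≤ (j : ℝ) * ε := by
    rw [div_le_iff₀ hε] at hj
    exact hj
  obtain ⟨X0, hX0, hfew⟩ := few_terms j
  refine ⟨2 ^ (16 * X0 + 25), by positivity, ?_⟩
  intro m t k hm ht hk
  obtain ⟨h, rfl⟩ : ∃ h, m = 2 * h + 1 := ⟨m / 2, by omega⟩
  have hm1 : (1 : ℝ) ≤ ((2 * h + 1 : ℕ) : ℝ) := by
    exact_mod_cast (by omega : 1 ≤ 2 * h + 1)
  -- the exponent
  obtain ⟨i, hi1, hi2⟩ : ∃ i : ℕ, h < X0 * (2 ^ j) ^ i ∧
      (2 : ℝ) ^ (16 * i) ≤ 2 ^ 16 * ((2 * h + 1 : ℕ) : ℝ) ^ ε := by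
    have hj1 : 1 ≤ j := by
      rcases Nat.eq_zero_or_pos j with h0 | h0
      · exfalso
        rw [h0] at hj16
        norm_num at hj16
      · exact h0
    have hex : ∃ i : ℕ, h < X0 * (2 ^ j) ^ i := by
      refine ⟨h, ?_⟩
      calc h < 2 ^ h := Nat.lt_two_pow_self
        _ ≤ (2 ^ j) ^ h := Nat.pow_le_pow_left (by
            calc 2 = 2 ^ 1 := (pow_one 2).symm
              _ ≤ 2 ^ j := Nat.pow_le_pow_right (by norm_num) hj1) h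
        _ ≤ X0 * (2 ^ j) ^ h := Nat.le_mul_of_pos_left _ hX0
    classical
    refine ⟨Nat.find hex, Nat.find_spec hex, ?_⟩
    have hmin := fun i => Nat.find_min hex (m := i)
    generalize Nat.find hex = i at hmin
    have hpow1 : (1 : ℝ) ≤ ((2 * h + 1 : ℕ) : ℝ) ^ ε := Real.one_le_rpow hm1 hε.le
    rcases Nat.eq_zero_or_pos i with h0 | h0
    · rw [h0, mul_zero, pow_zero]
      have : (1 : ℝ) ≤ 2 ^ 16 := by norm_num
      calc (1 : ℝ) = 1 * 1 := by ring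
        _ ≤ 2 ^ 16 * ((2 * h + 1 : ℕ) : ℝ) ^ ε := by gcongr
    · have h1 := hmin (i - 1) (by omega)
      push Not at h1
      have h2 : (2 ^ j) ^ (i - 1) ≤ 2 * h + 1 := by
        calc (2 ^ j) ^ (i - 1) ≤ X0 * (2 ^ j) ^ (i - 1) := Nat.le_mul_of_pos_left _ hX0
          _ ≤ h := h1
          _ ≤ 2 * h + 1 := by omega
      have h3 : ((2 : ℝ) ^ (j * (i - 1))) ≤ ((2 * h + 1 : ℕ) : ℝ) := by
        rw [pow_mul]
        exact_mod_cast h2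
      have h4 : ((2 : ℝ) ^ (j * (i - 1))) ^ ε ≤ ((2 * h + 1 : ℕ) : ℝ) ^ ε :=
        Real.rpow_le_rpow (by positivity) h3 hε.le
      have h5 : (2 : ℝ) ^ (16 * (i - 1)) ≤ ((2 : ℝ) ^ (j * (i - 1))) ^ ε := by
        rw [← Real.rpow_natCast 2 (j * (i - 1)), ← Real.rpow_mul (by norm_num),
          ← Real.rpow_natCast 2 (16 * (i - 1))]
        apply Real.rpow_le_rpow_of_exponent_le (by norm_num)
        push_cast
        have h6 : (0 : ℝ) ≤ ((i - 1 : ℕ) : ℝ) := by positivity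
        nlinarith
      calc (2 : ℝ) ^ (16 * i) = 2 ^ 16 * 2 ^ (16 * (i - 1)) := by
            rw [← pow_add]; congr 1; omega
        _ ≤ 2 ^ 16 * ((2 * h + 1 : ℕ) : ℝ) ^ ε := by
            gcongr
            exact h5.trans h4
  obtain ⟨R, hR⟩ : ∃ R, R = i + X0 := ⟨_, rfl⟩
  have hbig : 2 ^ (16 * R + 9) ≤ 2 ^ t := by
    have h1 : (2 : ℝ) ^ (16 * R + 9) ≤ 2 ^ t := by
      calc (2 : ℝ) ^ (16 * R + 9) = 2 ^ (16 * X0 + 9) * 2 ^ (16 * i) := by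
            rw [hR, ← pow_add]; congr 1; ring
        _ ≤ 2 ^ (16 * X0 + 9) * (2 ^ 16 * ((2 * h + 1 : ℕ) : ℝ) ^ ε) := by gcongr
        _ = 2 ^ (16 * X0 + 25) * ((2 * h + 1 : ℕ) : ℝ) ^ ε := by
            rw [← mul_assoc, ← pow_add]
        _ ≤ 2 ^ t := ht
    exact_mod_cast h1
  have hRt : 16 * R + 9 ≤ t := (Nat.pow_le_pow_iff_right (by norm_num)).1 hbig
  have hblk : ∀ x ≤ h, ∃ l : List ℕ, (∀ g ∈ l, ∃ a b : ℕ, g = 2 ^ a * 10 ^ b) ∧ l.sum = x ∧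
      l.length ≤ R := by
    intro x hx
    obtain ⟨l, hl1, hl2, hl3⟩ := hfew i x (by omega)
    exact ⟨l, hl1, hl2, by omega⟩
  have e16 : (16 : ℕ) ^ (2 * R + 1) = 2 ^ (8 * R + 4) := by
    rw [show (16 : ℕ) = 2 ^ 4 by norm_num, ← pow_mul]; congr 1; ring
  have hr : 2 * 16 ^ (2 * R + 1) ≤ 2 ^ (t - (8 * R + 4)) := by
    rw [e16]
    calc 2 * 2 ^ (8 * R + 4) = 2 ^ (8 * R + 5) := by ring
      _ ≤ 2 ^ (t - (8 * R + 4)) := Nat.pow_le_pow_right (by norm_num) (by omega)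
  have e2 : 2 ^ t * (2 * h + 1) = 2 ^ (t - (8 * R + 4)) * (16 ^ (2 * R + 1) * (2 * h + 1)) := by
    rw [e16, ← mul_assoc, ← pow_add]
    congr 2
    omega
  rw [e2] at hk ⊢
  exact few_weights h R (t - (8 * R + 4)) k hblk hr hk

end Pool.Agent.Lib.MP_be2ccc_co.AS
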