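import Mathlib
import Pool.Agent.Lib.MP_be2ccc_co.AS.Eps
import Pool.Agent.Lib.MP_be2ccc_co.AS.Net

/-!
# All weights in the orders `2 ^ t * m`, `2 ^ t ≥ 2 ^ 30 * m ^ 7`
-/

set_option autoImplicit false

namespace Pool.Agent.Lib.MP_be2ccc_co.AS

/-- the numbers `2 ^ a * 10 ^ b` up to `1280` -/
def gl : List ℕ := [1280, 1024, 1000, 800, 640, 512, 400, 320, 256, 200, 160, 128, 100, 80, 64, 40,
  32, 20, 16, 10, 8, 4, 2, 1]

theorem gl_isG : ∀ g ∈ gl, IsG g := by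
  intro g hg
  simp only [gl, List.mem_cons, List.not_mem_nil, or_false] at hg
  rcases hg with h | h | h | h | h | h | h | h | h | h | h | h | h | h | h | h | h | h | h | h |
    h | h | h | h <;> subst h
  · exact ⟨7, 1, by norm_num⟩
  · exact ⟨10, 0, by norm_num⟩
  · exact ⟨0, 3, by norm_num⟩
  · exact ⟨3, 2, by norm_num⟩
  · exact ⟨6, 1, by norm_num⟩
  · exact ⟨9, 0, by norm_num⟩
  · exact ⟨2, 2, by norm_num⟩
  · exact ⟨5, 1, by norm_num⟩
  · exact ⟨8, 0, by norm_num⟩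
  · exact ⟨1, 2, by norm_num⟩
  · exact ⟨4, 1, by norm_num⟩
  · exact ⟨7, 0, by norm_num⟩
  · exact ⟨0, 2, by norm_num⟩
  · exact ⟨3, 1, by norm_num⟩
  · exact ⟨6, 0, by norm_num⟩
  · exact ⟨2, 1, by norm_num⟩
  · exact ⟨5, 0, by norm_num⟩
  · exact ⟨1, 1, by norm_num⟩
  · exact ⟨4, 0, by norm_num⟩
  · exact ⟨0, 1, by norm_num⟩
  · exact ⟨3, 0, by norm_num⟩
  · exact ⟨2, 0, by norm_num⟩
  · exact ⟨1, 0, by norm_num⟩
  · exact ⟨0, 0, by norm_num⟩

/-- `x` is a sum of at most `k` of the numbers, found by trying the two largest ones -/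
def rep : ℕ → ℕ → Bool
  | 0, x => x == 0
  | k + 1, x => x == 0 ||
      ((gl.filter (fun g => decide (g ≤ x))).take 2).any (fun g => rep k (x - g))

theorem rep_sound (k x : ℕ) (h : rep k x = true) :
    ∃ l : List ℕ, (∀ g ∈ l, IsG g) ∧ l.sum = x ∧ l.length ≤ k := by
  induction k generalizing x with
  | zero =>
    have hx : x = 0 := by simpa [rep] using h
    exact ⟨[], by simp, by simp [hx], by simp⟩
  | succ k ih =>
    rw [rep, Bool.or_eq_true] at h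
    rcases h with h | h
    · have hx : x = 0 := by simpa using h
      exact ⟨[], by simp, by simp [hx], by simp⟩
    · rw [List.any_eq_true] at h
      obtain ⟨g, hg, hr⟩ := h
      have hg2 := List.mem_filter.1 (List.mem_of_mem_take hg)
      have hgx : g ≤ x := by simpa using hg2.2
      obtain ⟨l, h1, h2, h3⟩ := ih _ hr
      refine ⟨g :: l, ?_, ?_, ?_⟩
      · intro a ha
        rcases List.mem_cons.1 ha with ha | ha
        · rw [ha]; exact gl_isG g hg2.1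
        · exact h1 a ha
      · rw [List.sum_cons, h2]; omega
      · rw [List.length_cons]; omega

theorem rep5 : ∀ x : Fin 1479, rep 5 x.1 = true := by decide +kernel
theorem rep4 : ∀ x : Fin 199, rep 4 x.1 = true := by decide +kernel
theorem rep3 : ∀ x : Fin 39, rep 3 x.1 = true := by decide +kernel
theorem rep2 : ∀ x : Fin 7, rep 2 x.1 = true := by decide +kernel
theorem rep1 : ∀ x : Fin 3, rep 1 x.1 = true := by decide +kernel
theorem rep0 : ∀ x : Fin 1, rep 0 x.1 = true := by decide +kernel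

/-- beyond `512` the next smaller number is at least `4 x / 5` -/
theorem net5 (x : ℕ) (hx : 512 ≤ x) : ∃ g, IsG g ∧ g ≤ x ∧ (x - g) * 5 ≤ x := by
  obtain ⟨a, ha⟩ : ∃ a, a = Nat.log 2 (x / 512) := ⟨_, rfl⟩
  have hq : x / 512 ≠ 0 := by omega
  have ha1 : 2 ^ a * 512 ≤ x := by
    have := Nat.pow_log_le_self 2 hq
    rw [← ha] at this
    exact (Nat.le_div_iff_mul_le (by norm_num)).1 this
  have ha2 : x < 2 ^ (a + 1) * 512 := by
    have := Nat.lt_pow_succ_log_self (b := 2) (by norm_num) (x / 512)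
    rw [← ha] at this
    exact (Nat.div_lt_iff_lt_mul (by norm_num)).1 this
  rw [pow_succ] at ha2
  have g0 : IsG (2 ^ a) := ⟨a, 0, by simp⟩
  have g1 : IsG (2 ^ a * 512) := g0.mul (gl_isG 512 (by simp [gl]))
  have g2 : IsG (2 ^ a * 640) := g0.mul (gl_isG 640 (by simp [gl]))
  have g3 : IsG (2 ^ a * 800) := g0.mul (gl_isG 800 (by simp [gl]))
  have g4 : IsG (2 ^ a * 1000) := g0.mul (gl_isG 1000 (by simp [gl]))
  obtain ⟨y, hy⟩ : ∃ y, y = 2 ^ a := ⟨_, rfl⟩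
  rw [← hy] at ha1 ha2 g1 g2 g3 g4
  clear hy g0 ha hq
  have key : ∀ A B : ℕ, IsG (y * A) → y * A ≤ x → x < y * B → 4 * B ≤ 5 * A →
      ∃ g, IsG g ∧ g ≤ x ∧ (x - g) * 5 ≤ x := by
    intro A B hA h1 h2 h3
    refine ⟨y * A, hA, h1, ?_⟩
    have h4 : y * (4 * B) ≤ y * (5 * A) := Nat.mul_le_mul_left _ h3
    have h5 : y * (4 * B) = 4 * (y * B) := by ring
    have h6 : y * (5 * A) = 5 * (y * A) := by ring
    rw [h5, h6] at h4
    generalize y * A = p at *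
    generalize y * B = q at *
    omega
  rcases Nat.lt_or_ge x (y * 640) with h1 | h1
  · exact key 512 640 g1 ha1 h1 (by norm_num)
  rcases Nat.lt_or_ge x (y * 800) with h2 | h2
  · exact key 640 800 g2 h1 h2 (by norm_num)
  rcases Nat.lt_or_ge x (y * 1000) with h3 | h3
  · exact key 800 1000 g3 h2 h3 (by norm_num)
  · refine key 1000 1024 g4 h3 ?_ (by norm_num)
    calc x < y * 2 * 512 := ha2
      _ = y * 1024 := by ring

theorem few5 (i : ℕ) : ∀ x, x < 1479 * 5 ^ i → ∃ l : List ℕ, (∀ g ∈ l, IsG g) ∧ l.sum = x ∧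
    l.length ≤ 5 + i := by
  induction i with
  | zero =>
    intro x hx
    rw [pow_zero, mul_one] at hx
    exact rep_sound 5 x (rep5 ⟨x, hx⟩)
  | succ i ih =>
    intro x hx
    by_cases h : x < 1479
    · obtain ⟨l, h1, h2, h3⟩ := rep_sound 5 x (rep5 ⟨x, h⟩)
      exact ⟨l, h1, h2, by omega⟩
    · obtain ⟨g, hg, hgx, hg5⟩ := net5 x (by omega)
      obtain ⟨l, h1, h2, h3⟩ := ih (x - g) (by rw [pow_succ] at hx; omega)
      refine ⟨g :: l, ?_, ?_, ?_⟩
      · intro a ha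
        rcases List.mem_cons.1 ha with ha | ha
        · rw [ha]; exact hg
        · exact h1 a ha
      · rw [List.sum_cons, h2]; omega
      · rw [List.length_cons]; omega

/-- all weights if `2 ^ t ≥ 2 ^ 30 * m ^ 7` -/
theorem seven (m t k : ℕ) (hm : m % 2 = 1) (ht : 2 ^ 30 * m ^ 7 ≤ 2 ^ t) (hk : k ≤ 2 ^ t * m) :
    HasW (2 ^ t * m) k := by
  obtain ⟨h, rfl⟩ : ∃ h, m = 2 * h + 1 := ⟨m / 2, by omega⟩
  have tge : ∀ e m0 : ℕ, m0 ≤ 2 * h + 1 → 2 ^ e ≤ 2 ^ 30 * m0 ^ 7 → e ≤ t := by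
    intro e m0 h1 h2
    have h3 : 2 ^ e ≤ 2 ^ t := h2.trans ((Nat.mul_le_mul_left _ (Nat.pow_le_pow_left h1 7)).trans ht)
    exact (Nat.pow_le_pow_iff_right (by norm_num)).1 h3
  obtain ⟨R, hblk, hRt⟩ : ∃ R : ℕ, (∀ x ≤ h, ∃ l : List ℕ, (∀ g ∈ l, IsG g) ∧ l.sum = x ∧
      l.length ≤ R) ∧ 16 * R + 9 ≤ t := by
    by_cases h0 : h < 1
    · exact ⟨0, fun x hx => rep_sound 0 x (rep0 ⟨x, by omega⟩), tge _ 1 (by omega) (by norm_num)⟩
    by_cases h1 : h < 3
    · exact ⟨1, fun x hx => rep_sound 1 x (rep1 ⟨x, by omega⟩), tge _ 1 (by omega) (by norm_num)⟩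
    by_cases h2 : h < 7
    · exact ⟨2, fun x hx => rep_sound 2 x (rep2 ⟨x, by omega⟩), tge _ 7 (by omega) (by norm_num)⟩
    by_cases h3 : h < 39
    · exact ⟨3, fun x hx => rep_sound 3 x (rep3 ⟨x, by omega⟩), tge _ 15 (by omega) (by norm_num)⟩
    by_cases h4 : h < 199
    · exact ⟨4, fun x hx => rep_sound 4 x (rep4 ⟨x, by omega⟩), tge _ 79 (by omega) (by norm_num)⟩
    by_cases h5 : h < 1479
    · exact ⟨5, fun x hx => rep_sound 5 x (rep5 ⟨x, by omega⟩),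
        tge _ 399 (by omega) (by norm_num)⟩
    -- `h ≥ 1479`
    have hex : ∃ i : ℕ, h < 1479 * 5 ^ i := by
      refine ⟨h, ?_⟩
      calc h < 5 ^ h := Nat.lt_pow_self (by norm_num)
        _ ≤ 1479 * 5 ^ h := Nat.le_mul_of_pos_left _ (by norm_num)
    classical
    have hspec := Nat.find_spec hex
    have hmin := fun i => Nat.find_min hex (m := i)
    generalize Nat.find hex = i at hspec hmin
    have hi : 0 < i := by
      rcases Nat.eq_zero_or_pos i with h6 | h6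
      · rw [h6] at hspec; omega
      · exact h6
    obtain ⟨j, rfl⟩ : ∃ j, i = j + 1 := ⟨i - 1, by omega⟩
    have h6 := hmin j (by omega)
    push Not at h6
    refine ⟨5 + (j + 1), fun x hx => few5 (j + 1) x (by omega), ?_⟩
    refine tge _ (2958 * 5 ^ j) (by omega) ?_
    have e1 : 16 * (5 + (j + 1)) + 9 = 105 + 16 * j := by ring
    have e3 : (5 : ℕ) ^ j ^ 1 = 5 ^ j := by rw [pow_one]
    have e4 : ((5 : ℕ) ^ j) ^ 7 = (5 ^ 7) ^ j := by rw [← pow_mul, ← pow_mul, mul_comm]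
    have e5 : (2 : ℕ) ^ (16 * j) = (2 ^ 16) ^ j := pow_mul _ _ _
    have e6 : (2 : ℕ) ^ 105 ≤ 2 ^ 30 * 2958 ^ 7 := by norm_num
    have e7 : ((2 : ℕ) ^ 16) ^ j ≤ (5 ^ 7) ^ j := Nat.pow_le_pow_left (by norm_num) j
    rw [e1, pow_add, mul_pow, e4, e5, ← mul_assoc]
    exact Nat.mul_le_mul e6 e7
  have e16 : (16 : ℕ) ^ (2 * R + 1) = 2 ^ (8 * R + 4) := by
    rw [show (16 : ℕ) = 2 ^ 4 by norm_num, ← pow_mul]; congr 1; ring
  have hr : 2 * 16 ^ (2 * R + 1) ≤ 2 ^ (t - (8 * R + 4)) := by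
    rw [e16]
    calc 2 * 2 ^ (8 * R + 4) = 2 ^ (8 * R + 5) := by ring
      _ ≤ 2 ^ (t - (8 * R + 4)) := Nat.pow_le_pow_right (by norm_num) (by omega)
  have e2 : 2 ^ t * (2 * h + 1) = 2 ^ (t - (8 * R + 4)) * (16 ^ (2 * R + 1) * (2 * h + 1)) := by
    rw [e16, ← mul_assoc, ← pow_add]
    congr 2
    omega
  rw [e2] at hk ⊢
  exact few_weights h R (t - (8 * R + 4)) k hblk hr hk

end Pool.Agent.Lib.MP_be2ccc_co.AS
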